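import Mathlib

/-!
Maximum area triangles in tangent arrangements of a conic: the abstract counting part.
-/

namespace Pool.Agent.MP27bb56c

variable {ι : Type*}

def dd (m n : ι → ℝ) (i j : ι) : ℝ := m i * n j - n i * m j
def gg (κ : ℝ) (m n : ι → ℝ) (i j : ι) : ℝ := m i * m j + κ * n i * n j
def nn (κ : ℝ) (m n : ι → ℝ) (i : ι) : ℝ := m i ^ 2 + κ * n i ^ 2
noncomputable def tau (κ : ℝ) (m n : ι → ℝ) (i j : ι) : ℝ := dd m n i j / gg κ m n i j

section
variable {κ : ℝ} {m n : ι → ℝ}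

lemma dd_comm (i j : ι) : dd m n j i = - dd m n i j := by unfold dd; ring
lemma gg_comm (i j : ι) : gg κ m n j i = gg κ m n i j := by unfold gg; ring
lemma tau_comm (i j : ι) : tau κ m n j i = - tau κ m n i j := by
  unfold tau; rw [dd_comm, gg_comm, neg_div]

lemma sum_id (i j k : ι) :
    dd m n i j * gg κ m n j k * gg κ m n k i + dd m n j k * gg κ m n i j * gg κ m n k i
      + dd m n k i * gg κ m n i j * gg κ m n j k
      = κ * (dd m n i j * dd m n j k * dd m n k i) := by
  unfold dd gg; ring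

lemma sum_tau {i j k : ι} (h1 : gg κ m n i j ≠ 0) (h2 : gg κ m n j k ≠ 0)
    (h3 : gg κ m n k i ≠ 0) :
    tau κ m n i j + tau κ m n j k + tau κ m n k i
      = κ * (tau κ m n i j * tau κ m n j k * tau κ m n k i) := by
  have := sum_id (κ := κ) (m := m) (n := n) i j k
  unfold tau
  field_simp
  linarith

lemma base_id (v u z : ι) :
    gg κ m n v u * gg κ m n v z + κ * (dd m n v u * dd m n v z)
      = gg κ m n u z * nn κ m n v := by
  unfold dd gg nn; ring

lemma base_tau {v u z : ι} (h1 : gg κ m n v u ≠ 0) (h2 : gg κ m n v z ≠ 0) :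
    (1 + κ * (tau κ m n v u * tau κ m n v z)) * (gg κ m n v u * gg κ m n v z)
      = gg κ m n u z * nn κ m n v := by
  rw [← base_id]
  unfold tau
  field_simp

lemma inj_id (v u z : ι) :
    dd m n v u * gg κ m n v z - dd m n v z * gg κ m n v u
      = - (nn κ m n v * dd m n u z) := by
  unfold dd gg nn; ring

lemma tau_inj {v u z : ι} (h1 : gg κ m n v u ≠ 0) (h2 : gg κ m n v z ≠ 0)
    (hn : nn κ m n v ≠ 0) (h : tau κ m n v u = tau κ m n v z) : dd m n u z = 0 := by
  have e := inj_id (κ := κ) (m := m) (n := n) v u z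
  unfold tau at h
  rw [div_eq_div_iff h1 h2] at h
  have : nn κ m n v * dd m n u z = 0 := by linarith
  rcases mul_eq_zero.1 this with h | h
  · exact absurd h hn
  · exact h

end

/-- the area (up to a constant factor) -/
noncomputable def FF (κ : ℝ) (m n : ι → ℝ) (i j k : ι) : ℝ :=
  |tau κ m n i j * tau κ m n j k * tau κ m n k i|

section
variable {κ : ℝ} {m n : ι → ℝ}

lemma FF_rot (i j k : ι) : FF κ m n j k i = FF κ m n i j k := by
  unfold FF; congr 1; ring

lemma FF_rev (i j k : ι) : FF κ m n k j i = FF κ m n i j k := by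
  unfold FF
  rw [tau_comm j k, tau_comm i j, tau_comm k i, ← abs_neg]
  congr 1; ring

/-- admissible triple -/
structure Adm (κ : ℝ) (m n : ι → ℝ) (T : Finset ι) (x y z : ι) : Prop where
  hx : x ∈ T
  hy : y ∈ T
  hz : z ∈ T
  xy : x ≠ y
  yz : y ≠ z
  zx : z ≠ x
  gxy : gg κ m n x y ≠ 0
  gyz : gg κ m n y z ≠ 0
  gzx : gg κ m n z x ≠ 0

variable {T : Finset ι}

lemma Adm.rot {x y z : ι} (h : Adm κ m n T x y z) : Adm κ m n T y z x :=
  ⟨h.hy, h.hz, h.hx, h.yz, h.zx, h.xy, h.gyz, h.gzx, h.gxy⟩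

lemma Adm.rev {x y z : ι} (h : Adm κ m n T x y z) : Adm κ m n T z y x :=
  ⟨h.hz, h.hy, h.hx, h.yz.symm, h.xy.symm, h.zx.symm, by rw [gg_comm]; exact h.gyz,
    by rw [gg_comm]; exact h.gxy, by rw [gg_comm]; exact h.gzx⟩

variable {A : ℝ}

/-- case kappa ≤ 0 -/
lemma ext_nonpos (hκ : κ ≤ 0) (hmax : ∀ x y z, Adm κ m n T x y z → FF κ m n x y z ≤ A)
    {x y z : ι} (h : Adm κ m n T x y z) (hA : FF κ m n x y z = A)
    (ha : 0 < tau κ m n x y) (hb : 0 < tau κ m n y z) :
    nn κ m n y ≠ 0 ∧ ∀ u ∈ T, gg κ m n y u ≠ 0 → tau κ m n y u ≤ tau κ m n y z := by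
  set a := tau κ m n x y with ha'
  set b := tau κ m n y z with hb'
  have hyx : tau κ m n y x = -a := tau_comm x y
  have gyx : gg κ m n y x ≠ 0 := by rw [gg_comm]; exact h.gxy
  have key : ∀ u, gg κ m n y u ≠ 0 → 0 < tau κ m n y u → gg κ m n x u ≠ 0 ∧ nn κ m n y ≠ 0 := by
    intro u hu hpos
    have e := base_tau (κ := κ) (m := m) (n := n) (v := y) (u := x) (z := u) gyx hu
    rw [hyx] at e
    have h1 : 0 < 1 + κ * (-a * tau κ m n y u) := by nlinarith [mul_pos ha hpos]
    have h2 : (1 + κ * (-a * tau κ m n y u)) * (gg κ m n y x * gg κ m n y u) ≠ 0 :=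
      mul_ne_zero h1.ne' (mul_ne_zero gyx hu)
    rw [e] at h2
    exact ⟨left_ne_zero_of_mul h2, right_ne_zero_of_mul h2⟩
  refine ⟨(key z h.gyz hb).2, ?_⟩
  intro u hu gyu
  by_contra hlt
  push Not at hlt
  set b1 := tau κ m n y u with hb1
  have hb1pos : 0 < b1 := lt_trans hb hlt
  obtain ⟨gxu, -⟩ := key u gyu hb1pos
  have hux : u ≠ x := by
    rintro rfl
    rw [hb1, hyx] at hb1pos
    linarith
  have huy : y ≠ u := by
    rintro rfl
    have : b1 = 0 := by rw [hb1]; unfold tau dd; ring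
    linarith
  have adm : Adm κ m n T x y u :=
    ⟨h.hx, h.hy, hu, h.xy, huy, hux, h.gxy, gyu, by rw [gg_comm]; exact gxu⟩
  have hle := hmax x y u adm
  rw [← hA] at hle
  have s1 := sum_tau h.gxy h.gyz h.gzx
  have s2 := sum_tau adm.gxy adm.gyz adm.gzx
  rw [← ha', ← hb'] at s1
  rw [← ha', ← hb1] at s2
  unfold FF at hle
  rw [← ha', ← hb', ← hb1] at hle
  set c := tau κ m n z x
  set c1 := tau κ m n u x
  have d1 : 0 < 1 - κ * (a * b) := by nlinarith [mul_pos ha hb]
  have d2 : 0 < 1 - κ * (a * b1) := by nlinarith [mul_pos ha hb1pos]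
  have e1 : c * (1 - κ * (a * b)) = -(a + b) := by linarith
  have e2 : c1 * (1 - κ * (a * b1)) = -(a + b1) := by linarith
  have f1 : c = -((a + b) / (1 - κ * (a * b))) := by
    rw [← neg_div]; exact (eq_div_iff d1.ne').2 e1
  have f2 : c1 = -((a + b1) / (1 - κ * (a * b1))) := by
    rw [← neg_div]; exact (eq_div_iff d2.ne').2 e2
  have p1 : 0 < (a + b) / (1 - κ * (a * b)) := by positivity
  have p2 : 0 < (a + b1) / (1 - κ * (a * b1)) := by positivity
  have g1 : |a * b * c| = a * b * ((a + b) / (1 - κ * (a * b))) := by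
    rw [f1, mul_neg, abs_neg, abs_of_pos (by positivity)]
  have g2 : |a * b1 * c1| = a * b1 * ((a + b1) / (1 - κ * (a * b1))) := by
    rw [f2, mul_neg, abs_neg, abs_of_pos (by positivity)]
  rw [g1, g2, ← mul_div_assoc, ← mul_div_assoc, div_le_div_iff₀ d2 d1] at hle
  have : 0 < a * (b1 - b) * (a + b + b1 - κ * (a * b * b1)) := by
    have : 0 < a + b + b1 - κ * (a * b * b1) := by
      nlinarith [mul_pos (mul_pos ha hb) hb1pos]
    have h3 : 0 < b1 - b := by linarith
    positivity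
  nlinarith

/-- case kappa = 1, mixed signs -/
lemma ext_mixed (hmax : ∀ x y z, Adm 1 m n T x y z → FF 1 m n x y z ≤ A)
    {x y z : ι} (h : Adm 1 m n T x y z) (hA : FF 1 m n x y z = A)
    (ha : 0 < tau 1 m n x y) (hb : 0 < tau 1 m n y z) (hc : tau 1 m n z x < 0) :
    ∀ u ∈ T, gg 1 m n x u ≠ 0 → tau 1 m n x u ≤ tau 1 m n x z := by
  set a := tau 1 m n x y with ha'
  set b := tau 1 m n y z with hb'
  set c := tau 1 m n z x with hc'
  have hxz : tau 1 m n x z = -c := tau_comm z x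
  have s1 := sum_tau h.gxy h.gyz h.gzx
  rw [← ha', ← hb', ← hc'] at s1
  -- 1 - a b > 0
  have hab : 0 < 1 - a * b := by
    by_contra hn
    push Not at hn
    have : c * (1 - a * b) = -(a + b) := by linarith
    nlinarith [mul_nonneg_of_nonpos_of_nonpos hc.le hn]
  intro u hu gxu
  by_contra hlt
  push Not at hlt
  rw [hxz] at hlt
  set q1 := tau 1 m n x u with hq1
  set q := -c with hq
  have hqa : a < q := by
    have : q * (1 - a * b) = a + b := by rw [hq]; linarith
    nlinarith [mul_pos ha hb, mul_pos (mul_pos ha hb) (by linarith : (0:ℝ) < q)]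
  have hq1a : a < q1 := lt_trans hqa hlt
  have hq1pos : 0 < q1 := lt_trans ha hq1a
  have hqpos : 0 < q := lt_trans ha hqa
  have e := base_tau (κ := 1) (m := m) (n := n) (v := x) (u := y) (z := u) h.gxy gxu
  rw [← ha', ← hq1] at e
  have h1 : 0 < 1 + 1 * (a * q1) := by nlinarith [mul_pos ha hq1pos]
  have h2 : (1 + 1 * (a * q1)) * (gg 1 m n x y * gg 1 m n x u) ≠ 0 :=
    mul_ne_zero h1.ne' (mul_ne_zero h.gxy gxu)
  rw [e] at h2
  have gyu : gg 1 m n y u ≠ 0 := left_ne_zero_of_mul h2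
  have hux : u ≠ x := by
    rintro rfl
    have : q1 = 0 := by rw [hq1]; unfold tau dd; ring
    linarith
  have hyu : y ≠ u := by
    rintro rfl
    rw [hq1, ← ha'] at hq1a
    exact lt_irrefl _ hq1a
  have adm : Adm 1 m n T x y u :=
    ⟨h.hx, h.hy, hu, h.xy, hyu, hux, h.gxy, gyu, by rw [gg_comm]; exact gxu⟩
  have hle := hmax x y u adm
  rw [← hA] at hle
  have s2 := sum_tau adm.gxy adm.gyz adm.gzx
  rw [← ha'] at s2
  have hux' : tau 1 m n u x = -q1 := tau_comm x u
  unfold FF at hle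
  rw [hux'] at s2 hle
  rw [← ha', ← hb', ← hc'] at hle
  set b1 := tau 1 m n y u
  have d1 : 0 < 1 + a * q := by positivity
  have d2 : 0 < 1 + a * q1 := by positivity
  have e1 : b * (1 + a * q) = q - a := by rw [hq]; linarith
  have e2 : b1 * (1 + a * q1) = q1 - a := by linarith
  have f1 : b = (q - a) / (1 + a * q) := (eq_div_iff d1.ne').2 e1
  have f2 : b1 = (q1 - a) / (1 + a * q1) := (eq_div_iff d2.ne').2 e2
  have n1 : 0 < q - a := by linarith
  have n2 : 0 < q1 - a := by linarith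
  have g1 : |a * b * c| = a * q * (q - a) / (1 + a * q) := by
    have : a * b * c = -(a * q * (q - a) / (1 + a * q)) := by
      rw [f1]; rw [hq]; ring
    rw [this, abs_neg, abs_of_pos (by positivity)]
  have g2 : |a * b1 * -q1| = a * q1 * (q1 - a) / (1 + a * q1) := by
    have : a * b1 * -q1 = -(a * q1 * (q1 - a) / (1 + a * q1)) := by
      rw [f2]; ring
    rw [this, abs_neg, abs_of_pos (by positivity)]
  rw [g1, g2, div_le_div_iff₀ d2 d1] at hle
  have : 0 < a * (q1 - q) * (q1 + q - a + a * q * q1) := by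
    have h4 : 0 < q1 + q - a + a * q * q1 := by
      have : 0 < a * q * q1 := by positivity
      linarith
    have h3 : 0 < q1 - q := by linarith
    positivity
  nlinarith

/-- case kappa = 1, all positive, c ≥ b -/
lemma ext_pos (hmax : ∀ x y z, Adm 1 m n T x y z → FF 1 m n x y z ≤ A)
    {x y z : ι} (h : Adm 1 m n T x y z) (hA : FF 1 m n x y z = A)
    (ha : 0 < tau 1 m n x y) (hb : 0 < tau 1 m n y z) (hc : 0 < tau 1 m n z x)
    (hcb : tau 1 m n y z ≤ tau 1 m n z x) :
    ∀ u ∈ T, gg 1 m n x u ≠ 0 → tau 1 m n x z ≤ tau 1 m n x u := by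
  set a := tau 1 m n x y with ha'
  set b := tau 1 m n y z with hb'
  set c := tau 1 m n z x with hc'
  have hxz : tau 1 m n x z = -c := tau_comm z x
  have s1 := sum_tau h.gxy h.gyz h.gzx
  rw [← ha', ← hb', ← hc'] at s1
  have e1 : b * (a * c - 1) = a + c := by linarith
  have hac : 0 < a * c - 1 := by
    by_contra hn
    push Not at hn
    nlinarith
  intro u hu gxu
  by_contra hlt
  push Not at hlt
  rw [hxz] at hlt
  have hxu : tau 1 m n x u = - tau 1 m n u x := tau_comm u x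
  set c1 := tau 1 m n u x with hc1
  have hcc : c < c1 := by linarith
  have hc1pos : 0 < c1 := lt_trans hc hcc
  have hac1 : 0 < a * c1 - 1 := by nlinarith
  have e := base_tau (κ := 1) (m := m) (n := n) (v := x) (u := y) (z := u) h.gxy gxu
  rw [← ha', hxu] at e
  have h1 : 1 + 1 * (a * -c1) ≠ 0 := by
    intro h0
    nlinarith
  have h2 : (1 + 1 * (a * -c1)) * (gg 1 m n x y * gg 1 m n x u) ≠ 0 :=
    mul_ne_zero h1 (mul_ne_zero h.gxy gxu)
  rw [e] at h2
  have gyu : gg 1 m n y u ≠ 0 := left_ne_zero_of_mul h2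
  have hux : u ≠ x := by
    rintro rfl
    have : c1 = 0 := by rw [hc1]; unfold tau dd; ring
    linarith
  have hyu : y ≠ u := by
    rintro rfl
    rw [← ha'] at hxu
    linarith
  have adm : Adm 1 m n T x y u :=
    ⟨h.hx, h.hy, hu, h.xy, hyu, hux, h.gxy, gyu, by rw [gg_comm]; exact gxu⟩
  have hle := hmax x y u adm
  rw [← hA] at hle
  have s2 := sum_tau adm.gxy adm.gyz adm.gzx
  rw [← ha', ← hc1] at s2
  unfold FF at hle
  rw [← ha', ← hb', ← hc', ← hc1] at hle
  set b1 := tau 1 m n y u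
  have e2 : b1 * (a * c1 - 1) = a + c1 := by linarith
  have f1 : b = (a + c) / (a * c - 1) := (eq_div_iff hac.ne').2 e1
  have f2 : b1 = (a + c1) / (a * c1 - 1) := (eq_div_iff hac1.ne').2 e2
  have g1 : |a * b * c| = a * c * (a + c) / (a * c - 1) := by
    have : a * b * c = a * c * (a + c) / (a * c - 1) := by
      rw [f1]; ring
    rw [this, abs_of_pos (by positivity)]
  have g2 : |a * b1 * c1| = a * c1 * (a + c1) / (a * c1 - 1) := by
    have : a * b1 * c1 = a * c1 * (a + c1) / (a * c1 - 1) := by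
      rw [f2]; ring
    rw [this, abs_of_pos (by positivity)]
  rw [g1, g2, div_le_div_iff₀ hac1 hac] at hle
  have h5 : 0 < a * c * c1 - a - c - c1 := by
    have : c1 * (a * c - 1) > b * (a * c - 1) := by
      apply mul_lt_mul_of_pos_right _ hac
      linarith
    nlinarith
  have h6 : 0 < a * (c1 - c) * (a * c * c1 - a - c - c1) := by
    have h3 : 0 < c1 - c := by linarith
    positivity
  nlinarith

/-! mirror images -/

lemma dd_neg (i j : ι) : dd m (fun i => - n i) i j = - dd m n i j := by unfold dd; ring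
lemma gg_neg (i j : ι) : gg κ m (fun i => - n i) i j = gg κ m n i j := by unfold gg; ring
lemma tau_neg (i j : ι) : tau κ m (fun i => - n i) i j = - tau κ m n i j := by
  unfold tau; rw [dd_neg, gg_neg, neg_div]
lemma FF_neg (i j k : ι) : FF κ m (fun i => - n i) i j k = FF κ m n i j k := by
  unfold FF; rw [tau_neg, tau_neg, tau_neg, ← abs_neg]; congr 1; ring
lemma Adm_neg {x y z : ι} (h : Adm κ m n T x y z) : Adm κ m (fun i => - n i) T x y z :=
  ⟨h.hx, h.hy, h.hz, h.xy, h.yz, h.zx, by rw [gg_neg]; exact h.gxy,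
    by rw [gg_neg]; exact h.gyz, by rw [gg_neg]; exact h.gzx⟩
lemma Adm_of_neg {x y z : ι} (h : Adm κ m (fun i => - n i) T x y z) : Adm κ m n T x y z :=
  ⟨h.hx, h.hy, h.hz, h.xy, h.yz, h.zx, by have := h.gxy; rwa [gg_neg] at this,
    by have := h.gyz; rwa [gg_neg] at this, by have := h.gzx; rwa [gg_neg] at this⟩

lemma ext_nonpos' (hκ : κ ≤ 0) (hmax : ∀ x y z, Adm κ m n T x y z → FF κ m n x y z ≤ A)
    {x y z : ι} (h : Adm κ m n T x y z) (hA : FF κ m n x y z = A)
    (ha : 0 < tau κ m n x y) (hb : 0 < tau κ m n y z) :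
    ∀ u ∈ T, gg κ m n y u ≠ 0 → tau κ m n y x ≤ tau κ m n y u := by
  have h1 := ext_nonpos (m := m) (n := fun i => - n i) (T := T) (A := A) hκ
    (fun x y z hxyz => by rw [FF_neg]; exact hmax x y z (Adm_of_neg hxyz))
    (x := z) (y := y) (z := x) (Adm_neg h.rev) (by rw [FF_neg, FF_rev]; exact hA)
    (by rw [tau_neg, tau_comm y z, neg_neg]; exact hb)
    (by rw [tau_neg, tau_comm x y, neg_neg]; exact ha)
  intro u hu hg
  have h2 := h1.2 u hu (by rw [gg_neg]; exact hg)
  rw [tau_neg, tau_neg] at h2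
  linarith

/-- case kappa = 1, all positive, a ≥ b -/
lemma ext_pos' (hmax : ∀ x y z, Adm 1 m n T x y z → FF 1 m n x y z ≤ A)
    {x y z : ι} (h : Adm 1 m n T x y z) (hA : FF 1 m n x y z = A)
    (ha : 0 < tau 1 m n x y) (hb : 0 < tau 1 m n y z) (hc : 0 < tau 1 m n z x)
    (hab : tau 1 m n y z ≤ tau 1 m n x y) :
    ∀ u ∈ T, gg 1 m n x u ≠ 0 → tau 1 m n x u ≤ tau 1 m n x y := by
  have h1 := ext_pos (m := m) (n := fun i => - n i) (T := T) (A := A)
    (fun x y z hxyz => by rw [FF_neg]; exact hmax x y z (Adm_of_neg hxyz))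
    (x := x) (y := z) (z := y) (Adm_neg h.rev.rot.rot)
    (by rw [FF_neg, FF_rev, FF_rot]; exact hA)
    (by rw [tau_neg, tau_comm z x, neg_neg]; exact hc)
    (by rw [tau_neg, tau_comm y z, neg_neg]; exact hb)
    (by rw [tau_neg, tau_comm x y, neg_neg]; exact ha)
    (by rw [tau_neg, tau_neg, tau_comm y z, tau_comm x y, neg_neg, neg_neg]; exact hab)
  intro u hu hg
  have h2 := h1 u hu (by rw [gg_neg]; exact hg)
  rw [tau_neg, tau_neg] at h2
  linarith

/-- `w` is the partner of `v` with the largest parameter -/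
def MaxP (κ : ℝ) (m n : ι → ℝ) (T : Finset ι) (v w : ι) : Prop :=
  ∀ u ∈ T, gg κ m n v u ≠ 0 → tau κ m n v u ≤ tau κ m n v w

/-- `w` is the partner of `v` with the smallest parameter -/
def MinP (κ : ℝ) (m n : ι → ℝ) (T : Finset ι) (v w : ι) : Prop :=
  ∀ u ∈ T, gg κ m n v u ≠ 0 → tau κ m n v w ≤ tau κ m n v u

/-- a maximum triple in good order -/
def Good (κ : ℝ) (m n : ι → ℝ) (T : Finset ι) (A : ℝ) (v w u : ι) : Prop :=
  Adm κ m n T v w u ∧ FF κ m n v w u = A ∧ nn κ m n v ≠ 0 ∧ MaxP κ m n T v w ∧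
    (MinP κ m n T v u ∨ (κ = 1 ∧ 0 < tau κ m n v u ∧ tau κ m n v u < tau κ m n v w))

/-- some order is good -/
def Concl (κ : ℝ) (m n : ι → ℝ) (T : Finset ι) (A : ℝ) (x y z : ι) : Prop :=
  Good κ m n T A x y z ∨ Good κ m n T A x z y ∨ Good κ m n T A y x z ∨
    Good κ m n T A y z x ∨ Good κ m n T A z x y ∨ Good κ m n T A z y x

lemma Concl.rot {x y z : ι} (h : Concl κ m n T A y z x) : Concl κ m n T A x y z := by
  unfold Concl at *; tauto

lemma Concl.rev {x y z : ι} (h : Concl κ m n T A z y x) : Concl κ m n T A x y z := by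
  unfold Concl at *; tauto

lemma tau_ne (hd : ∀ i ∈ T, ∀ j ∈ T, i ≠ j → dd m n i j ≠ 0) {i j : ι} (hi : i ∈ T)
    (hj : j ∈ T) (hij : i ≠ j) (hg : gg κ m n i j ≠ 0) : tau κ m n i j ≠ 0 :=
  div_ne_zero (hd i hi j hj hij) hg

lemma concl_nonpos (hκ : κ ≤ 0) (hd : ∀ i ∈ T, ∀ j ∈ T, i ≠ j → dd m n i j ≠ 0)
    (hmax : ∀ x y z, Adm κ m n T x y z → FF κ m n x y z ≤ A)
    {x y z : ι} (h : Adm κ m n T x y z) (hA : FF κ m n x y z = A) : Concl κ m n T A x y z := by
  have core : ∀ {x y z : ι}, Adm κ m n T x y z → FF κ m n x y z = A →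
      0 < tau κ m n x y → 0 < tau κ m n y z → Concl κ m n T A x y z := by
    intro x y z h hA ha hb
    obtain ⟨h1, h2⟩ := ext_nonpos hκ hmax h hA ha hb
    have h3 := ext_nonpos' hκ hmax h hA ha hb
    exact Or.inr (Or.inr (Or.inr (Or.inl ⟨h.rot, by rw [FF_rot]; exact hA, h1, h2,
      Or.inl h3⟩)))
  have a0 := tau_ne hd h.hx h.hy h.xy h.gxy
  have b0 := tau_ne hd h.hy h.hz h.yz h.gyz
  have c0 := tau_ne hd h.hz h.hx h.zx h.gzx
  have hA1 : FF κ m n y z x = A := by rw [FF_rot]; exact hA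
  have hA2 : FF κ m n z x y = A := by rw [FF_rot, FF_rot]; exact hA
  have hB : FF κ m n z y x = A := by rw [FF_rev]; exact hA
  have hB1 : FF κ m n y x z = A := by rw [FF_rot]; exact hB
  have hB2 : FF κ m n x z y = A := by rw [FF_rot, FF_rot]; exact hB
  rcases lt_or_gt_of_ne a0 with ha | ha <;> rcases lt_or_gt_of_ne b0 with hb | hb
  · -- a<0, b<0
    apply Concl.rev
    apply core h.rev hB
    · rw [tau_comm]; linarith
    · rw [tau_comm]; linarith
  · rcases lt_or_gt_of_ne c0 with hc | hc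
    · -- a<0, c<0 : reversed: tau y x > 0, tau x z > 0
      apply Concl.rev
      apply Concl.rot
      apply core h.rev.rot hB1
      · rw [tau_comm]; linarith
      · rw [tau_comm]; linarith
    · -- b>0, c>0
      apply Concl.rot
      exact core h.rot hA1 hb hc
  · rcases lt_or_gt_of_ne c0 with hc | hc
    · -- b<0, c<0 : tau x z > 0, tau z y > 0
      apply Concl.rev
      apply Concl.rot
      apply Concl.rot
      apply core h.rev.rot.rot hB2
      · rw [tau_comm]; linarith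
      · rw [tau_comm]; linarith
    · -- c>0, a>0
      apply Concl.rot
      apply Concl.rot
      exact core h.rot.rot hA2 hc ha
  · exact core h hA ha hb

lemma concl_one (hd : ∀ i ∈ T, ∀ j ∈ T, i ≠ j → dd m n i j ≠ 0)
    (hmax : ∀ x y z, Adm 1 m n T x y z → FF 1 m n x y z ≤ A)
    {x y z : ι} (h : Adm 1 m n T x y z) (hA : FF 1 m n x y z = A) : Concl 1 m n T A x y z := by
  have nne : ∀ {x y : ι}, x ∈ T → y ∈ T → x ≠ y → nn 1 m n x ≠ 0 := by
    intro x y hx hy hxy h0
    have h1 : m x = 0 ∧ n x = 0 := by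
      unfold nn at h0
      constructor
      · nlinarith [sq_nonneg (m x), sq_nonneg (n x)]
      · nlinarith [sq_nonneg (m x), sq_nonneg (n x)]
    apply hd x hx y hy hxy
    unfold dd
    rw [h1.1, h1.2]; ring
  -- mixed signs
  have core1 : ∀ {x y z : ι}, Adm 1 m n T x y z → FF 1 m n x y z = A →
      0 < tau 1 m n x y → 0 < tau 1 m n y z → tau 1 m n z x < 0 → Concl 1 m n T A x y z := by
    intro x y z h hA ha hb hc
    have h2 := ext_mixed hmax h hA ha hb hc
    have hlt : tau 1 m n x y < tau 1 m n x z := by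
      have s1 := sum_tau h.gxy h.gyz h.gzx
      rw [tau_comm z x]
      have h4 : tau 1 m n x y * tau 1 m n y z * tau 1 m n z x < 0 :=
        mul_neg_of_pos_of_neg (mul_pos ha hb) hc
      linarith
    exact Or.inr (Or.inl ⟨h.rev.rot.rot, by rw [FF_rot, FF_rot, FF_rev]; exact hA,
      nne h.hx h.hy h.xy, h2, Or.inr ⟨rfl, ha, hlt⟩⟩)
  have core2' : ∀ {x y z : ι}, Adm 1 m n T x y z → FF 1 m n x y z = A →
      0 < tau 1 m n x y → 0 < tau 1 m n y z → 0 < tau 1 m n z x →
      tau 1 m n y z ≤ tau 1 m n z x → tau 1 m n y z ≤ tau 1 m n x y →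
      Concl 1 m n T A x y z := by
    intro x y z h hA ha hb hc hcb hab
    have h2 := ext_pos hmax h hA ha hb hc hcb
    have h3 := ext_pos' hmax h hA ha hb hc hab
    exact Or.inl ⟨h, hA, nne h.hx h.hy h.xy, h3, Or.inl h2⟩
  have core2 : ∀ {x y z : ι}, Adm 1 m n T x y z → FF 1 m n x y z = A →
      0 < tau 1 m n x y → 0 < tau 1 m n y z → 0 < tau 1 m n z x → Concl 1 m n T A x y z := by
    intro x y z h hA ha hb hc
    have hA1 : FF 1 m n y z x = A := by rw [FF_rot]; exact hA
    have hA2 : FF 1 m n z x y = A := by rw [FF_rot, FF_rot]; exact hA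
    rcases le_total (tau 1 m n y z) (tau 1 m n z x) with h1 | h1
    · rcases le_total (tau 1 m n y z) (tau 1 m n x y) with h2 | h2
      · exact core2' h hA ha hb hc h1 h2
      · apply Concl.rot
        apply Concl.rot
        exact core2' h.rot.rot hA2 hc ha hb h2 (le_trans h2 h1)
    · rcases le_total (tau 1 m n z x) (tau 1 m n x y) with h2 | h2
      · apply Concl.rot
        exact core2' h.rot hA1 hb hc ha h2 h1
      · apply Concl.rot
        apply Concl.rot
        exact core2' h.rot.rot hA2 hc ha hb (le_trans h2 h1) h2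
  have a0 := tau_ne hd h.hx h.hy h.xy h.gxy
  have b0 := tau_ne hd h.hy h.hz h.yz h.gyz
  have c0 := tau_ne hd h.hz h.hx h.zx h.gzx
  have hA1 : FF 1 m n y z x = A := by rw [FF_rot]; exact hA
  have hA2 : FF 1 m n z x y = A := by rw [FF_rot, FF_rot]; exact hA
  have hB : FF 1 m n z y x = A := by rw [FF_rev]; exact hA
  have hB1 : FF 1 m n y x z = A := by rw [FF_rot]; exact hB
  have hB2 : FF 1 m n x z y = A := by rw [FF_rot, FF_rot]; exact hB
  rcases lt_or_gt_of_ne a0 with ha | ha <;> rcases lt_or_gt_of_ne b0 with hb | hb <;>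
    rcases lt_or_gt_of_ne c0 with hc | hc
  · -- - - -
    apply Concl.rev
    apply core2 h.rev hB
    · rw [tau_comm]; linarith
    · rw [tau_comm]; linarith
    · rw [tau_comm]; linarith
  · -- - - +
    apply Concl.rev
    apply core1 h.rev hB
    · rw [tau_comm]; linarith
    · rw [tau_comm]; linarith
    · rw [tau_comm]; linarith
  · -- a<0 b>0 c<0 : reversed y x, x z positive, z y negative
    apply Concl.rev
    apply Concl.rot
    apply core1 h.rev.rot hB1
    · rw [tau_comm]; linarith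
    · rw [tau_comm]; linarith
    · rw [tau_comm]; linarith
  · -- a<0 b>0 c>0
    apply Concl.rot
    exact core1 h.rot hA1 hb hc ha
  · -- a>0 b<0 c<0
    apply Concl.rev
    apply Concl.rot
    apply Concl.rot
    apply core1 h.rev.rot.rot hB2
    · rw [tau_comm]; linarith
    · rw [tau_comm]; linarith
    · rw [tau_comm]; linarith
  · -- a>0 b<0 c>0
    apply Concl.rot
    apply Concl.rot
    exact core1 h.rot.rot hA2 hc ha hb
  · -- a>0 b>0 c<0
    exact core1 h hA ha hb hc
  · exact core2 h hA ha hb hc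

end

/-! counting -/
section count
open Polynomial

lemma quad_roots_card {a b c : ℝ} (ha : a ≠ 0) :
    (C a * X ^ 2 + C b * X + C c : ℝ[X]).roots.toFinset.card ≤ 2 := by
  refine le_trans (Multiset.toFinset_card_le _) ?_
  refine le_trans (Polynomial.card_roots' _) ?_
  rw [Polynomial.natDegree_quadratic ha]

lemma quad_ne {a b c : ℝ} (ha : a ≠ 0) : (C a * X ^ 2 + C b * X + C c : ℝ[X]) ≠ 0 := by
  intro h
  have := Polynomial.leadingCoeff_quadratic (b := b) (c := c) ha
  rw [h] at this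
  simp at this
  exact ha this.symm

lemma quad_mem {a b c p : ℝ} (ha : a ≠ 0) (h : a * p ^ 2 + b * p + c = 0) :
    p ∈ (C a * X ^ 2 + C b * X + C c : ℝ[X]).roots.toFinset := by
  rw [Multiset.mem_toFinset, Polynomial.mem_roots (quad_ne ha)]
  simp [Polynomial.IsRoot, h]

variable {κ : ℝ} {m n : ι → ℝ} {T : Finset ι} {A : ℝ}

open Classical in
/-- third lines of the maximum triangles of the second kind through v and w -/
noncomputable def YY (κ : ℝ) (m n : ι → ℝ) (T : Finset ι) (A : ℝ) (v w : ι) : Finset ι :=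
  T.filter (fun u => κ = 1 ∧ nn κ m n v ≠ 0 ∧ Adm κ m n T v w u ∧ FF κ m n v w u = A ∧
    0 < tau κ m n v u ∧ tau κ m n v u < tau κ m n v w)

open Classical in
lemma YY_card (hd : ∀ i ∈ T, ∀ j ∈ T, i ≠ j → dd m n i j ≠ 0) {v w : ι} :
    (YY κ m n T A v w).card ≤ 2 := by
  rcases (YY κ m n T A v w).eq_empty_or_nonempty with h0 | ⟨u0, hu0⟩
  · rw [h0]; simp
  have hu0' := (Finset.mem_filter.1 hu0).2.2.2.1
  have hn := (Finset.mem_filter.1 hu0).2.2.1
  set q := tau κ m n v w with hq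
  have hq0 : q ≠ 0 := tau_ne hd hu0'.hx hu0'.hy hu0'.xy hu0'.gxy
  have hR : (C q * X ^ 2 + C (A * q - q ^ 2) * X + C A : ℝ[X]).roots.toFinset.card ≤ 2 :=
    quad_roots_card hq0
  refine le_trans (Finset.card_le_card_of_injOn (fun u => tau κ m n v u) ?_ ?_) hR
  · intro u hu
    have hu' := (Finset.mem_filter.1 hu).2
    obtain ⟨hk, -, adm, hF, hp0, hpq⟩ := hu'
    subst hk
    rw [Finset.mem_coe]
    apply quad_mem hq0
    show q * (tau 1 m n v u) ^ 2 + (A * q - q ^ 2) * (tau 1 m n v u) + A = 0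
    rw [← hq] at hpq
    set p := tau 1 m n v u with hp
    have hs := sum_tau adm.gxy adm.gyz adm.gzx
    have hpu : tau 1 m n u v = -p := tau_comm v u
    rw [← hq, hpu] at hs
    unfold FF at hF
    rw [← hq, hpu] at hF
    set r := tau 1 m n w u
    have e : r * (1 + p * q) = p - q := by linarith
    have hpos : 0 < 1 + p * q := by
      have : 0 < p * q := mul_pos hp0 (lt_trans hp0 hpq)
      linarith
    have e2 : A * (1 + p * q) = q * p * (q - p) := by
      have h1 : 0 < q * p * (q - p) :=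
        mul_pos (mul_pos (lt_trans hp0 hpq) hp0) (by linarith)
      calc A * (1 + p * q) = |q * r * -p| * |1 + p * q| := by rw [hF, abs_of_pos hpos]
        _ = |q * r * -p * (1 + p * q)| := (abs_mul _ _).symm
        _ = |q * p * (q - p)| := by
            congr 1
            have : q * r * -p * (1 + p * q) = - (q * p * (r * (1 + p * q))) := by ring
            rw [this, e]; ring
        _ = q * p * (q - p) := abs_of_pos h1
    linarith
  · intro u hu u' hu' huu
    have a1 := (Finset.mem_filter.1 hu).2.2.2.1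
    have a2 := (Finset.mem_filter.1 hu').2.2.2.1
    by_contra hne
    have g1 : gg κ m n v u ≠ 0 := by rw [gg_comm]; exact a1.gzx
    have g2 : gg κ m n v u' ≠ 0 := by rw [gg_comm]; exact a2.gzx
    exact hd u a1.hz u' a2.hz hne (tau_inj g1 g2 hn huu)

open Classical in
/-- partners with the largest parameter -/
noncomputable def EMax (κ : ℝ) (m n : ι → ℝ) (T : Finset ι) (v : ι) : Finset ι :=
  T.filter (fun w => nn κ m n v ≠ 0 ∧ gg κ m n v w ≠ 0 ∧ MaxP κ m n T v w)

open Classical in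
/-- partners with the smallest parameter -/
noncomputable def EMin (κ : ℝ) (m n : ι → ℝ) (T : Finset ι) (v : ι) : Finset ι :=
  T.filter (fun w => nn κ m n v ≠ 0 ∧ gg κ m n v w ≠ 0 ∧ MinP κ m n T v w)

open Classical in
lemma EMax_card (hd : ∀ i ∈ T, ∀ j ∈ T, i ≠ j → dd m n i j ≠ 0) (v : ι) :
    (EMax κ m n T v).card ≤ 1 := by
  rw [Finset.card_le_one]
  intro w hw w' hw'
  obtain ⟨hw1, h1, h2, h3⟩ := Finset.mem_filter.1 hw
  obtain ⟨hw1', h1', h2', h3'⟩ := Finset.mem_filter.1 hw'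
  by_contra hne
  exact hd w hw1 w' hw1' hne
    (tau_inj h2 h2' h1 (le_antisymm (h3' w hw1 h2) (h3 w' hw1' h2')))

open Classical in
lemma EMin_card (hd : ∀ i ∈ T, ∀ j ∈ T, i ≠ j → dd m n i j ≠ 0) (v : ι) :
    (EMin κ m n T v).card ≤ 1 := by
  rw [Finset.card_le_one]
  intro w hw w' hw'
  obtain ⟨hw1, h1, h2, h3⟩ := Finset.mem_filter.1 hw
  obtain ⟨hw1', h1', h2', h3'⟩ := Finset.mem_filter.1 hw'
  by_contra hne
  exact hd w hw1 w' hw1' hne
    (tau_inj h2 h2' h1 (le_antisymm (h3 w' hw1' h2') (h3' w hw1 h2)))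

open Classical in
theorem count_gen (hκ : κ ≤ 0 ∨ κ = 1) (hd : ∀ i ∈ T, ∀ j ∈ T, i ≠ j → dd m n i j ≠ 0)
    (hmax : ∀ x y z, Adm κ m n T x y z → FF κ m n x y z ≤ A)
    (k : ℕ) (hk : ∀ v w, (YY κ m n T A v w).card ≤ k)
    (M : Finset (Finset ι))
    (hM : ∀ t ∈ M, ∃ x y z, t = {x, y, z} ∧ Adm κ m n T x y z ∧ FF κ m n x y z = A) :
    M.card ≤ (1 + k) * T.card := by
  have hsub : M ⊆ T.biUnion (fun v => (EMax κ m n T v).biUnion (fun w =>
      (EMin κ m n T v ∪ YY κ m n T A v w).image (fun u => ({v, w, u} : Finset ι)))) := by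
    intro t ht
    obtain ⟨x, y, z, rfl, adm, hF⟩ := hM t ht
    have hc : Concl κ m n T A x y z := by
      rcases hκ with h | h
      · exact concl_nonpos h hd hmax adm hF
      · subst h
        exact concl_one hd hmax adm hF
    have hh : ∃ v w u, ({x, y, z} : Finset ι) = {v, w, u} ∧ Good κ m n T A v w u := by
      rcases hc with h | h | h | h | h | h
      · exact ⟨x, y, z, rfl, h⟩
      · exact ⟨x, z, y, by rw [Finset.pair_comm], h⟩
      · exact ⟨y, x, z, by rw [Finset.insert_comm], h⟩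
      · refine ⟨y, z, x, ?_, h⟩
        ext s; simp only [Finset.mem_insert, Finset.mem_singleton]; tauto
      · refine ⟨z, x, y, ?_, h⟩
        ext s; simp only [Finset.mem_insert, Finset.mem_singleton]; tauto
      · refine ⟨z, y, x, ?_, h⟩
        ext s; simp only [Finset.mem_insert, Finset.mem_singleton]; tauto
    obtain ⟨v, w, u, hu1, hu2, hu3, hu4, hu5, hu6⟩ := hh
    rw [Finset.mem_biUnion]
    refine ⟨v, hu2.hx, ?_⟩
    rw [Finset.mem_biUnion]
    refine ⟨w, Finset.mem_filter.2 ⟨hu2.hy, hu4, hu2.gxy, hu5⟩, ?_⟩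
    rw [Finset.mem_image]
    refine ⟨u, ?_, hu1.symm⟩
    rw [Finset.mem_union]
    rcases hu6 with h | ⟨h1, h2, h3⟩
    · left
      exact Finset.mem_filter.2 ⟨hu2.hz, hu4, by rw [gg_comm]; exact hu2.gzx, h⟩
    · right
      exact Finset.mem_filter.2 ⟨hu2.hz, h1, hu4, hu2, hu3, h2, h3⟩
  refine le_trans (Finset.card_le_card hsub) ?_
  have h1 : ∀ v ∈ T, ((EMax κ m n T v).biUnion (fun w =>
      (EMin κ m n T v ∪ YY κ m n T A v w).image
        (fun u => ({v, w, u} : Finset ι)))).card ≤ 1 + k := by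
    intro v hv
    have h2 : ∀ w ∈ EMax κ m n T v,
        ((EMin κ m n T v ∪ YY κ m n T A v w).image
          (fun u => ({v, w, u} : Finset ι))).card ≤ 1 + k := by
      intro w hw
      refine le_trans Finset.card_image_le (le_trans (Finset.card_union_le _ _) ?_)
      exact add_le_add (EMin_card hd v) (hk v w)
    have h3 := Finset.card_biUnion_le_card_mul _ _ (1 + k) h2
    have h4 := EMax_card (κ := κ) hd v
    calc _ ≤ (EMax κ m n T v).card * (1 + k) := h3
      _ ≤ 1 * (1 + k) := Nat.mul_le_mul_right (1 + k) h4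
      _ = 1 + k := one_mul _
  have h5 := Finset.card_biUnion_le_card_mul _ _ (1 + k) h1
  rw [mul_comm]
  exact h5

/-- at most `3 n` for the ellipse -/
theorem count_one (hκ : κ = 1) (hd : ∀ i ∈ T, ∀ j ∈ T, i ≠ j → dd m n i j ≠ 0)
    (hmax : ∀ x y z, Adm κ m n T x y z → FF κ m n x y z ≤ A)
    (M : Finset (Finset ι))
    (hM : ∀ t ∈ M, ∃ x y z, (↑t : Set ι) = {x, y, z} ∧ Adm κ m n T x y z ∧
      FF κ m n x y z = A) :
    M.card ≤ 3 * T.card := by
  classical
  refine count_gen (Or.inr hκ) hd hmax 2 (fun v w => YY_card hd) M ?_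
  intro t ht
  obtain ⟨x, y, z, h1, h2⟩ := hM t ht
  exact ⟨x, y, z, by apply Finset.coe_injective; rw [h1]; simp, h2⟩

/-- at most `n` for the parabola and the hyperbola -/
theorem count_nonpos (hκ : κ ≤ 0) (hd : ∀ i ∈ T, ∀ j ∈ T, i ≠ j → dd m n i j ≠ 0)
    (hmax : ∀ x y z, Adm κ m n T x y z → FF κ m n x y z ≤ A)
    (M : Finset (Finset ι))
    (hM : ∀ t ∈ M, ∃ x y z, (↑t : Set ι) = {x, y, z} ∧ Adm κ m n T x y z ∧
      FF κ m n x y z = A) :
    M.card ≤ T.card := by
  classical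
  have := count_gen (Or.inl hκ) hd hmax 0 (fun v w => ?_) M ?_
  · rw [add_zero, one_mul] at this
    exact this
  · rw [Nat.le_zero, Finset.card_eq_zero, Finset.eq_empty_iff_forall_notMem]
    intro u hu
    have := (Finset.mem_filter.1 hu).2.1
    rw [this] at hκ
    norm_num at hκ
  · intro t ht
    obtain ⟨x, y, z, h1, h2⟩ := hM t ht
    exact ⟨x, y, z, by apply Finset.coe_injective; rw [h1]; simp, h2⟩

end count

end Pool.Agent.MP27bb56c
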