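import Mathlib

/-!
Maximum area triangles of lines that all touch one cell of the arrangement: abstract part, in terms
of the dual points.
-/

namespace Pool.Agent.MP27bb56v

variable {ι : Type*}

/-- determinant of two dual points -/
def D (a b : ι → ℝ) (i j : ι) : ℝ := a i * b j - a j * b i

/-- the point `(q i, r i)` lies on line `i` and inside all other lines -/
structure CP (a b q r : ι → ℝ) (T : Finset ι) : Prop where
  on : ∀ i ∈ T, a i * q i + b i * r i = 1
  ins : ∀ i ∈ T, ∀ j ∈ T, j ≠ i → a j * q i + b j * r i < 1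

/-- upper bound for the areas -/
def Bd (a b : ι → ℝ) (T : Finset ι) (A : ℝ) : Prop :=
  ∀ i ∈ T, ∀ j ∈ T, ∀ k ∈ T, D a b i j ≠ 0 → D a b j k ≠ 0 → D a b k i ≠ 0 →
    (D a b i j + D a b j k + D a b k i) ^ 2 ≤ A * |D a b i j * D a b j k * D a b k i|

/-- a triple of largest area -/
structure Mx (a b : ι → ℝ) (T : Finset ι) (A : ℝ) (x y z : ι) : Prop where
  hx : x ∈ T
  hy : y ∈ T
  hz : z ∈ T
  xy : D a b x y ≠ 0
  yz : D a b y z ≠ 0
  zx : D a b z x ≠ 0
  eq : (D a b x y + D a b y z + D a b z x) ^ 2 = A * |D a b x y * D a b y z * D a b z x|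

variable {a b q r : ι → ℝ} {T : Finset ι} {A : ℝ}

lemma D_comm (i j : ι) : D a b j i = - D a b i j := by unfold D; ring

lemma D_self (i : ι) : D a b i i = 0 := by unfold D; ring

lemma plu (x y z w : ι) :
    D a b x y * D a b z w - D a b x z * D a b y w + D a b x w * D a b y z = 0 := by
  unfold D; ring

lemma ne_of_D {i j : ι} (h : D a b i j ≠ 0) : i ≠ j := by
  rintro rfl; exact h (D_self _)

lemma Mx.rot {x y z : ι} (h : Mx a b T A x y z) : Mx a b T A y z x :=
  ⟨h.hy, h.hz, h.hx, h.yz, h.zx, h.xy, by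
    have := h.eq
    have e1 : D a b y z + D a b z x + D a b x y = D a b x y + D a b y z + D a b z x := by ring
    have e2 : D a b y z * D a b z x * D a b x y = D a b x y * D a b y z * D a b z x := by ring
    rw [e1, e2]; exact this⟩

lemma Mx.rev {x y z : ι} (h : Mx a b T A x y z) : Mx a b T A z y x :=
  ⟨h.hz, h.hy, h.hx, by rw [D_comm]; exact neg_ne_zero.2 h.yz,
    by rw [D_comm]; exact neg_ne_zero.2 h.xy, by rw [D_comm]; exact neg_ne_zero.2 h.zx, by
    have := h.eq
    rw [D_comm y z, D_comm x y, D_comm z x]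
    have e1 : (-D a b y z + -D a b x y + -D a b z x) ^ 2
      = (D a b x y + D a b y z + D a b z x) ^ 2 := by ring
    have e2 : -D a b y z * -D a b x y * -D a b z x
      = -(D a b x y * D a b y z * D a b z x) := by ring
    rw [e1, e2, abs_neg]; exact this⟩

/-- convexity -/
lemma cv (h : CP a b q r T) {x y z : ι} (hx : x ∈ T) (hy : y ∈ T) (hz : z ∈ T)
    (h1 : 0 < D a b x y) (h2 : 0 < D a b y z) :
    D a b x z < D a b x y + D a b y z := by
  have e1 := h.on y hy
  have e2 := h.ins y hy x hx (ne_of_D h1.ne')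
  have e3 := h.ins y hy z hz (ne_of_D h2.ne').symm
  have e4 : D a b x z * (a y * q y + b y * r y) = D a b y z * (a x * q y + b x * r y) +
      D a b x y * (a z * q y + b z * r y) := by unfold D; ring
  rw [e1, mul_one] at e4
  rw [e4]
  have f1 : D a b y z * (a x * q y + b x * r y) < D a b y z * 1 :=
    mul_lt_mul_of_pos_left e2 h2
  have f2 : D a b x y * (a z * q y + b z * r y) < D a b x y * 1 :=
    mul_lt_mul_of_pos_left e3 h1
  linarith

/-- parallel lines lie on opposite sides -/
lemma par (h : CP a b q r T) {x y : ι} (hx : x ∈ T) (hy : y ∈ T) (hxy : x ≠ y)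
    (h0 : D a b x y = 0) : ∃ l : ℝ, l < 0 ∧ a y = l * a x ∧ b y = l * b x := by
  have e1 := h.on x hx
  have e2 := h.ins x hx y hy hxy.symm
  have e3 := h.on y hy
  have e4 := h.ins y hy x hx hxy
  set l := a y * q x + b y * r x with hl
  have ea : a y = l * a x := by
    have : a y * (a x * q x + b x * r x) = l * a x := by
      rw [hl]
      unfold D at h0
      linear_combination (-(r x)) * h0
    rw [e1, mul_one] at this
    exact this
  have eb : b y = l * b x := by
    have : b y * (a x * q x + b x * r x) = l * b x := by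
      rw [hl]
      unfold D at h0
      linear_combination (q x) * h0
    rw [e1, mul_one] at this
    exact this
  refine ⟨l, ?_, ea, eb⟩
  rw [ea, eb] at e3
  have e5 : l * (a x * q y + b x * r y) = 1 := by linarith
  by_contra hn
  push Not at hn
  nlinarith [mul_nonneg hn (by linarith : 0 ≤ 1 - (a x * q y + b x * r y))]

lemma half_ne (h : CP a b q r T) {v u w : ι} (hu : u ∈ T) (hw : w ∈ T) (huw : u ≠ w)
    (h1 : 0 < D a b v u) (h2 : 0 < D a b v w) : D a b u w ≠ 0 := by
  intro h0
  obtain ⟨l, hl, ha, hb⟩ := par h hu hw huw h0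
  have : D a b v w = l * D a b v u := by unfold D; rw [ha, hb]; ring
  rw [this] at h2
  nlinarith

/-- `w` is the last line in the open half turn after `v` -/
def IsLast (a b : ι → ℝ) (T : Finset ι) (v w : ι) : Prop :=
  0 < D a b v w ∧ ∀ u ∈ T, 0 < D a b v u → u ≠ w → 0 < D a b u w

/-- `w` is the first line in the open half turn before `v` -/
def IsFirst (a b : ι → ℝ) (T : Finset ι) (v w : ι) : Prop :=
  0 < D a b w v ∧ ∀ u ∈ T, 0 < D a b u v → u ≠ w → 0 < D a b w u

lemma last_unique {v w w' : ι} (hw : w ∈ T) (hw' : w' ∈ T) (h : IsLast a b T v w)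
    (h' : IsLast a b T v w') : w = w' := by
  by_contra hne
  have h1 := h.2 w' hw' h'.1 (Ne.symm hne)
  have h2 := h'.2 w hw h.1 hne
  rw [D_comm] at h2
  linarith

lemma first_unique {v w w' : ι} (hw : w ∈ T) (hw' : w' ∈ T) (h : IsFirst a b T v w)
    (h' : IsFirst a b T v w') : w = w' := by
  by_contra hne
  have h1 := h.2 w' hw' h'.1 (Ne.symm hne)
  have h2 := h'.2 w hw h.1 hne
  rw [D_comm] at h2
  linarith

/-- the acute type: every line is extreme with respect to one of the other two -/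
lemma acute_ext (h : CP a b q r T) (hA0 : 0 ≤ A) (hb : Bd a b T A) {x y z : ι}
    (hm : Mx a b T A x y z)
    (hxy : 0 < D a b x y) (hyz : 0 < D a b y z) (hzx : 0 < D a b z x) :
    IsLast a b T y z ∨ IsFirst a b T x z := by
  by_contra hcon
  push Not at hcon
  obtain ⟨hc1, hc2⟩ := hcon
  unfold IsLast at hc1
  unfold IsFirst at hc2
  push Not at hc1 hc2
  obtain ⟨v, hv, hv1, hv2, hv3⟩ := hc1 hyz
  obtain ⟨u, hu, hu1, hu2, hu3⟩ := hc2 hzx
  -- v after z, u before z
  have n1 : D a b v z ≠ 0 := half_ne h hv hm.hz hv2 hv1 hyz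
  have hzv : 0 < D a b z v := by
    rw [D_comm v z]
    rcases lt_or_gt_of_ne n1 with g | g
    · linarith
    · linarith
  have hu1' : D a b x u < 0 := by rw [D_comm u x]; linarith
  have n2 : D a b z u ≠ 0 := by
    intro h0
    obtain ⟨l, hl, ha', hb'⟩ := par h hm.hz hu hu2.symm h0
    have : D a b u x = l * D a b z x := by unfold D; rw [ha', hb']; ring
    rw [this] at hu1
    nlinarith
  have huz : 0 < D a b u z := by
    rw [D_comm z u]
    rcases lt_or_gt_of_ne n2 with g | g
    · linarith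
    · linarith
  have hvx : 0 < D a b v x := by
    have e := plu (a := a) (b := b) x y z v
    rw [D_comm z x, D_comm v x] at e
    have p1 := mul_pos hxy hzv
    have p2 := mul_pos hzx hv1
    by_contra hn
    push Not at hn
    have p3 := mul_nonneg (by linarith : 0 ≤ - D a b v x) hyz.le
    linarith
  have hyu : 0 < D a b y u := by
    have e := plu (a := a) (b := b) x y u z
    rw [D_comm u x, D_comm z x] at e
    have p1 := mul_pos hxy huz
    have p2 := mul_pos hu1 hyz
    by_contra hn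
    push Not at hn
    have p3 := mul_nonneg hzx.le (by linarith : 0 ≤ - D a b y u)
    linarith
  have huv : 0 < D a b u v := by
    have e := plu (a := a) (b := b) y u z v
    have p1 := mul_pos hyu hzv
    have p2 := mul_pos hv1 huz
    have p3 : 0 < D a b y z * D a b u v := by linarith
    exact (pos_iff_pos_of_mul_pos p3).1 hyz
  have hc := cv h hu hm.hz hv huz hzv
  have i1 : D a b u v * D a b z x = D a b z v * D a b u x + D a b u z * D a b v x := by
    unfold D; ring
  have i2 : D a b u v * D a b y z = D a b z v * D a b y u + D a b u z * D a b y v := by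
    unfold D; ring
  have m0 := hm.eq
  have m1 := hb x hm.hx y hm.hy u hu hxy.ne' hyu.ne' hu1.ne'
  have m2 := hb x hm.hx y hm.hy v hv hxy.ne' hv1.ne' hvx.ne'
  rw [abs_of_pos (mul_pos (mul_pos hxy hyz) hzx)] at m0
  rw [abs_of_pos (mul_pos (mul_pos hxy hyu) hu1)] at m1
  rw [abs_of_pos (mul_pos (mul_pos hxy hv1) hvx)] at m2
  set s := D a b x y
  set β2 := D a b y z
  set γ2 := D a b z x
  set β1 := D a b y u
  set γ1 := D a b u x
  set β3 := D a b y v
  set γ3 := D a b v x
  set d12 := D a b u z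
  set d23 := D a b z v
  set d13 := D a b u v
  set δ1 := s + β1 + γ1 with hδ1
  set δ2 := s + β2 + γ2 with hδ2
  set δ3 := s + β3 + γ3 with hδ3
  have hδ1p : 0 < δ1 := by positivity
  have hδ2p : 0 < δ2 := by positivity
  have hδ3p : 0 < δ3 := by positivity
  have k1 : d13 * δ2 < d23 * δ1 + d12 * δ3 := by
    have : d13 * δ2 = d13 * s + (d23 * (β1 + γ1) + d12 * (β3 + γ3)) := by
      rw [hδ2]; linear_combination i1 + i2
    rw [this, hδ1, hδ3]
    have := mul_lt_mul_of_pos_right hc hxy
    linarith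
  have k2 : 2 * (δ1 * δ3) ≤ A * s * (β1 * γ3 + β3 * γ1) := by
    by_contra hn
    push Not at hn
    have g0 : 0 ≤ A * s * (β1 * γ3 + β3 * γ1) := by positivity
    have g1 : (A * s * (β1 * γ3 + β3 * γ1)) ^ 2 < (2 * (δ1 * δ3)) ^ 2 :=
      pow_lt_pow_left₀ hn g0 two_ne_zero
    have g2 : δ1 ^ 2 * δ3 ^ 2 ≤ (A * (s * β1 * γ1)) * (A * (s * β3 * γ3)) :=
      mul_le_mul m1 m2 (by positivity) (by positivity)
    have g3 : 0 ≤ (A * s) ^ 2 * (β1 * γ3 - β3 * γ1) ^ 2 := by positivity
    nlinarith
  have k3 : (d23 * δ1 + d12 * δ3) ^ 2 ≤ A * s * ((d13 * β2) * (d13 * γ2)) := by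
    rw [i1, i2]
    have g1 : d23 ^ 2 * δ1 ^ 2 ≤ d23 ^ 2 * (A * (s * β1 * γ1)) :=
      mul_le_mul_of_nonneg_left m1 (by positivity)
    have g2 : d12 ^ 2 * δ3 ^ 2 ≤ d12 ^ 2 * (A * (s * β3 * γ3)) :=
      mul_le_mul_of_nonneg_left m2 (by positivity)
    have g3 : d23 * d12 * (2 * (δ1 * δ3)) ≤ d23 * d12 * (A * s * (β1 * γ3 + β3 * γ1)) :=
      mul_le_mul_of_nonneg_left k2 (by positivity)
    calc (d23 * δ1 + d12 * δ3) ^ 2 = d23 ^ 2 * δ1 ^ 2 + d12 ^ 2 * δ3 ^ 2 +
          d23 * d12 * (2 * (δ1 * δ3)) := by ring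
      _ ≤ d23 ^ 2 * (A * (s * β1 * γ1)) + d12 ^ 2 * (A * (s * β3 * γ3)) +
          d23 * d12 * (A * s * (β1 * γ3 + β3 * γ1)) := by linarith
      _ = A * s * ((d23 * β1 + d12 * β3) * (d23 * γ1 + d12 * γ3)) := by ring
  have k4 : A * s * ((d13 * β2) * (d13 * γ2)) = (d13 * δ2) ^ 2 := by
    rw [mul_pow, m0]; ring
  have k5 : (d13 * δ2) ^ 2 < (d23 * δ1 + d12 * δ3) ^ 2 :=
    pow_lt_pow_left₀ k1 (by positivity) two_ne_zero
  linarith

/-- the obtuse type -/
structure Obt (a b : ι → ℝ) (T : Finset ι) (A : ℝ) (x y z : ι) : Prop where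
  mx : Mx a b T A x y z
  xy : 0 < D a b x y
  yz : 0 < D a b y z
  xz : 0 < D a b x z

lemma obt_eq {x y z : ι} (h : Obt a b T A x y z) :
    (D a b x y + D a b y z - D a b x z) ^ 2 = A * (D a b x y * D a b y z * D a b x z) := by
  have := h.mx.eq
  rw [D_comm x z] at this
  have e : D a b x y * D a b y z * -D a b x z = -(D a b x y * D a b y z * D a b x z) := by ring
  rw [e, abs_neg, abs_of_pos (mul_pos (mul_pos h.xy h.yz) h.xz)] at this
  rw [← this]; ring

lemma bd_obt (hb : Bd a b T A) {x y z : ι} (hx : x ∈ T) (hy : y ∈ T) (hz : z ∈ T)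
    (h1 : 0 < D a b x y) (h2 : 0 < D a b y z) (h3 : 0 < D a b x z) :
    (D a b x y + D a b y z - D a b x z) ^ 2 ≤ A * (D a b x y * D a b y z * D a b x z) := by
  have := hb x hx y hy z hz h1.ne' h2.ne' (by rw [D_comm]; exact neg_ne_zero.2 h3.ne')
  rw [D_comm x z] at this
  have e : D a b x y * D a b y z * -D a b x z = -(D a b x y * D a b y z * D a b x z) := by ring
  rw [e, abs_neg, abs_of_pos (mul_pos (mul_pos h1 h2) h3)] at this
  calc _ = (D a b x y + D a b y z + -D a b x z) ^ 2 := by ring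
    _ ≤ _ := this

/-- comparison of two areas -/
lemma compare {s β α s' β' α' δ δ' : ℝ} (hδ : 0 < δ) (hs : 0 < s)
    (hα' : 0 < α') (hβ' : 0 < β')
    (c1 : α' * δ < α * δ') (c2 : β' * δ < β * δ')
    (m0 : δ ^ 2 = A * (s * α * β)) (m1 : δ' ^ 2 ≤ A * (s * α' * β'))
    (hα : 0 < α) (hβ : 0 < β) : False := by
  have h1 : (α' * δ) * (β' * δ) < (α * δ') * (β * δ') :=
    mul_lt_mul'' c1 c2 (by positivity) (by positivity)
  have h2 : (α * β) * δ' ^ 2 ≤ (α * β) * (A * (s * α' * β')) :=
    mul_le_mul_of_nonneg_left m1 (by positivity)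
  have h3 : (α' * β') * δ ^ 2 = (α' * β') * (A * (s * α * β)) := by rw [m0]
  nlinarith

lemma obt_last (h : CP a b q r T) (hb : Bd a b T A) {x y z : ι} (ho : Obt a b T A x y z) :
    IsLast a b T x z := by
  refine ⟨ho.xz, ?_⟩
  intro u hu hxu huz
  by_contra hn
  have hx := ho.mx.hx
  have hy := ho.mx.hy
  have hz := ho.mx.hz
  have n1 : D a b u z ≠ 0 := half_ne h hu hz huz hxu ho.xz
  have hzu : 0 < D a b z u := by
    rw [D_comm u z]
    rcases lt_or_gt_of_ne n1 with g | g
    · linarith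
    · exact absurd g hn
  have e := plu (a := a) (b := b) x y z u
  have hyu : 0 < D a b y u := by
    have p1 := mul_pos ho.xy hzu
    have p2 := mul_pos hxu ho.yz
    have p3 : 0 < D a b x z * D a b y u := by linarith
    exact (pos_iff_pos_of_mul_pos p3).1 ho.xz
  have c1 := cv h hx hy hz ho.xy ho.yz
  have c2 := cv h hx hy hu ho.xy hyu
  have c3 := cv h hx hz hu ho.xz hzu
  have c4 := cv h hy hz hu ho.yz hzu
  have m0 := obt_eq ho
  have m1 := bd_obt hb hx hy hu ho.xy hyu hxu
  refine compare (A := A) (s := D a b x y) (α := D a b x z) (β := D a b y z)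
    (α' := D a b x u) (β' := D a b y u) (s' := 0)
    (δ := D a b x y + D a b y z - D a b x z) (δ' := D a b x y + D a b y u - D a b x u)
    (by linarith) ho.xy hxu hyu ?_ ?_ ?_ ?_ ho.xz ho.yz
  · have : 0 < D a b x y * (D a b x z + D a b z u - D a b x u) :=
      mul_pos ho.xy (by linarith)
    nlinarith
  · have : 0 < D a b x y * (D a b y z + D a b z u - D a b y u) :=
      mul_pos ho.xy (by linarith)
    nlinarith
  · rw [m0]; ring
  · refine le_trans m1 (le_of_eq ?_); ring

lemma obt_first (h : CP a b q r T) (hb : Bd a b T A) {x y z : ι} (ho : Obt a b T A x y z) :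
    IsFirst a b T z x := by
  refine ⟨ho.xz, ?_⟩
  intro u hu huz hux
  by_contra hn
  have hx := ho.mx.hx
  have hy := ho.mx.hy
  have hz := ho.mx.hz
  have n1 : D a b x u ≠ 0 := by
    intro h0
    obtain ⟨l, hl, ha', hb'⟩ := par h hx hu hux.symm h0
    have : D a b u z = l * D a b x z := by unfold D; rw [ha', hb']; ring
    rw [this] at huz
    nlinarith [ho.xz]
  have hux' : 0 < D a b u x := by
    rw [D_comm x u]
    rcases lt_or_gt_of_ne n1 with g | g
    · linarith
    · exact absurd g hn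
  have e := plu (a := a) (b := b) u x y z
  have huy : 0 < D a b u y := by
    have p1 := mul_pos hux' ho.yz
    have p2 := mul_pos huz ho.xy
    have p3 : 0 < D a b x z * D a b u y := by linarith
    exact (pos_iff_pos_of_mul_pos p3).1 ho.xz
  have c1 := cv h hx hy hz ho.xy ho.yz
  have c2 := cv h hu hy hz huy ho.yz
  have c3 := cv h hu hx hz hux' ho.xz
  have c4 := cv h hu hx hy hux' ho.xy
  have m0 := obt_eq ho
  have m1 := bd_obt hb hu hy hz huy ho.yz huz
  refine compare (A := A) (s := D a b y z) (α := D a b x z) (β := D a b x y)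
    (α' := D a b u z) (β' := D a b u y) (s' := 0)
    (δ := D a b x y + D a b y z - D a b x z) (δ' := D a b u y + D a b y z - D a b u z)
    (by linarith) ho.yz huz huy ?_ ?_ ?_ ?_ ho.xz ho.xy
  · have : 0 < D a b y z * (D a b u x + D a b x z - D a b u z) :=
      mul_pos ho.yz (by linarith)
    nlinarith
  · have : 0 < D a b y z * (D a b u x + D a b x y - D a b u y) :=
      mul_pos ho.yz (by linarith)
    nlinarith
  · rw [m0]; ring
  · refine le_trans m1 (le_of_eq ?_); ring

/-- no acute triple over an obtuse maximum triple -/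
lemma obt_no_acute (h : CP a b q r T) (hb : Bd a b T A) {x y z w : ι}
    (ho : Obt a b T A x y z) (hw : w ∈ T) (h1 : 0 < D a b z w) (h2 : 0 < D a b w x) :
    False := by
  have hx := ho.mx.hx
  have hy := ho.mx.hy
  have hz := ho.mx.hz
  have e := plu (a := a) (b := b) x y z w
  rw [D_comm w x] at e
  have c1 := cv h hx hy hz ho.xy ho.yz
  have m0 := obt_eq ho
  have m1 := hb x hx z hz w hw ho.xz.ne' h1.ne' h2.ne'
  rw [abs_of_pos (mul_pos (mul_pos ho.xz h1) h2)] at m1
  have d1 : 0 < D a b x y + D a b w x + D a b y w := by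
    rcases le_or_gt 0 (D a b y w) with g | g
    · linarith [ho.xy]
    · have := cv h hw hx hy h2 ho.xy
      rw [D_comm y w] at this
      linarith
  have d2 : 0 < D a b y z + D a b z w - D a b y w := by
    have := cv h hy hz hw ho.yz h1
    linarith
  refine compare (A := A) (s := D a b x z) (α := D a b x y) (β := D a b y z)
    (α' := D a b w x) (β' := D a b z w) (s' := 0)
    (δ := D a b x y + D a b y z - D a b x z) (δ' := D a b x z + D a b z w + D a b w x)
    (by linarith) ho.xz h2 h1 ?_ ?_ ?_ ?_ ho.xy ho.yz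
  · have : 0 < D a b x z * (D a b x y + D a b w x + D a b y w) := mul_pos ho.xz d1
    nlinarith
  · have : 0 < D a b x z * (D a b y z + D a b z w - D a b y w) := mul_pos ho.xz d2
    nlinarith
  · rw [m0]; ring
  · refine le_trans m1 (le_of_eq ?_); ring

lemma obt_st (h : CP a b q r T) (hb : Bd a b T A) {x y z : ι} (ho : Obt a b T A x y z)
    {s : ι} (hs : s ∈ T) (hsx : s ≠ x) (hsz : s ≠ z) (g1 : D a b x s ≠ 0)
    (g2 : D a b s z ≠ 0) : 0 < D a b x s ∧ 0 < D a b s z := by
  rcases lt_or_gt_of_ne g1 with p | p <;> rcases lt_or_gt_of_ne g2 with t | t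
  · exact (obt_no_acute h hb ho hs (by rw [D_comm s z]; linarith)
      (by rw [D_comm x s]; linarith)).elim
  · have := (obt_first h hb ho).2 s hs t hsx
    exact ⟨this, t⟩
  · have := (obt_last h hb ho).2 s hs p hsz
    exact ⟨p, this⟩
  · exact ⟨p, t⟩

end Pool.Agent.MP27bb56v
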