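import Pool.Agent.Lib.MP_27bb56_h2.Cell

/-!
Maximum area triangles of lines that all touch one cell of the arrangement: counting.
-/

namespace Pool.Agent.MP27bb56v

variable {ι : Type*} {a b q r : ι → ℝ} {T : Finset ι} {A : ℝ}

lemma par2 (h : CP a b q r T) {v x y : ι} (hv : v ∈ T) (h1 : D a b v x = 0)
    (h2 : D a b v y = 0) : D a b x y = 0 := by
  have e := h.on v hv
  have e1 : a v * D a b x y = 0 := by
    unfold D at *
    linear_combination (a x) * h2 - (a y) * h1
  have e2 : b v * D a b x y = 0 := by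
    unfold D at *
    linear_combination (b x) * h2 - (b y) * h1
  have : (a v * q v + b v * r v) * D a b x y = 0 := by
    linear_combination (q v) * e1 + (r v) * e2
  rw [e, one_mul] at this
  exact this

lemma obt_not_both (h : CP a b q r T) (hb : Bd a b T A) {x y z w v : ι}
    (ho : Obt a b T A x y z) (hw : w ∈ T) (hwx : w ≠ x) (h1 : D a b x w = 0) (hv : v ∈ T)
    (hvz : v ≠ z) (h2 : D a b z v = 0) : False := by
  have hx := ho.mx.hx
  have hy := ho.mx.hy
  have hz := ho.mx.hz
  obtain ⟨l', hl', ha1, hb1⟩ := par h hx hw hwx.symm h1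
  obtain ⟨m', hm', ha2, hb2⟩ := par h hz hv hvz.symm h2
  have e1 : D a b y w = -l' * D a b x y := by unfold D; rw [ha1, hb1]; ring
  have e2 : D a b w v = l' * m' * D a b x z := by unfold D; rw [ha1, hb1, ha2, hb2]; ring
  have e3 : D a b v y = -m' * D a b y z := by unfold D; rw [ha2, hb2]; ring
  have e4 : D a b z w = -l' * D a b x z := by unfold D; rw [ha1, hb1]; ring
  have e5 : D a b v x = -m' * D a b x z := by unfold D; rw [ha2, hb2]; ring
  have hl : 0 < -l' := by linarith
  have hm : 0 < -m' := by linarith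
  have hlm : 0 < l' * m' := mul_pos_of_neg_of_neg hl' hm'
  have c1 := cv h hy hz hw ho.yz (by rw [e4]; exact mul_pos hl ho.xz)
  have c2 := cv h hv hx hy (by rw [e5]; exact mul_pos hm ho.xz) ho.xy
  have c3 := cv h hx hy hz ho.xy ho.yz
  have p1 : 0 < D a b y w := by rw [e1]; exact mul_pos hl ho.xy
  have p2 : 0 < D a b w v := by rw [e2]; exact mul_pos hlm ho.xz
  have p3 : 0 < D a b v y := by rw [e3]; exact mul_pos hm ho.yz
  have m1 := hb y hy w hw v hv p1.ne' p2.ne' p3.ne'
  rw [abs_of_pos (mul_pos (mul_pos p1 p2) p3)] at m1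
  have m0 := obt_eq ho
  rw [e1, e4] at c1
  rw [e3, e5] at c2
  rw [e1, e2, e3] at m1
  have hs := ho.xy
  have hβ := ho.yz
  have hα := ho.xz
  set s := D a b x y
  set β := D a b y z
  set α := D a b x z
  have k1 : (l' * m') * (s + β - α) < -l' * s + l' * m' * α + -m' * β := by
    have g1 : -m' * (-l' * s) < -m' * (β + -l' * α) := mul_lt_mul_of_pos_left c1 hm
    have g2 : -l' * (-m' * β) < -l' * (-m' * α + s) := mul_lt_mul_of_pos_left c2 hl
    nlinarith
  have k2 : ((l' * m') * (s + β - α)) ^ 2 < (-l' * s + l' * m' * α + -m' * β) ^ 2 :=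
    pow_lt_pow_left₀ k1 (mul_nonneg hlm.le (by linarith)) two_ne_zero
  have k3 : ((l' * m') * (s + β - α)) ^ 2 = (l' * m') ^ 2 * (A * (s * β * α)) := by
    rw [mul_pow, m0]
  have k4 : A * (-l' * s * (l' * m' * α) * (-m' * β)) = (l' * m') ^ 2 * (A * (s * β * α)) := by
    ring
  linarith

lemma no_acute_of_obt (h : CP a b q r T) (hb : Bd a b T A) {x y z u v w : ι}
    (ho : Obt a b T A x y z) (hu : u ∈ T) (hv : v ∈ T) (hw : w ∈ T) (h1 : 0 < D a b u v)
    (h2 : 0 < D a b v w) (h3 : 0 < D a b w u) : False := by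
  have hx := ho.mx.hx
  have hz := ho.mx.hz
  by_cases hP : ∃ v ∈ T, v ≠ z ∧ D a b z v = 0
  · obtain ⟨v', hv', hvz, hv0⟩ := hP
    have hall : ∀ s ∈ T, 0 ≤ D a b s z := by
      intro s hs
      by_cases hsx : s = x
      · rw [hsx]; exact ho.xz.le
      by_cases hsz : s = z
      · rw [hsz, D_self]
      by_cases g2 : D a b s z = 0
      · rw [g2]
      by_cases g1 : D a b x s = 0
      · exact (obt_not_both h hb ho hs hsx g1 hv' hvz hv0).elim
      exact (obt_st h hb ho hs hsx hsz g1 g2).2.le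
    have e : D a b v w * D a b u z + D a b w u * D a b v z + D a b u v * D a b w z = 0 := by
      unfold D; ring
    have p1 := mul_nonneg h2.le (hall u hu)
    have p2 := mul_nonneg h3.le (hall v hv)
    have p3 := mul_nonneg h1.le (hall w hw)
    have q1 : D a b u z = 0 := by
      have : D a b v w * D a b u z = 0 := by linarith
      rcases mul_eq_zero.1 this with g | g
      · linarith
      · exact g
    have q2 : D a b v z = 0 := by
      have : D a b w u * D a b v z = 0 := by linarith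
      rcases mul_eq_zero.1 this with g | g
      · linarith
      · exact g
    have := par2 h hz (x := u) (y := v) (by rw [D_comm, q1, neg_zero])
      (by rw [D_comm, q2, neg_zero])
    linarith
  · push Not at hP
    have hall : ∀ s ∈ T, 0 ≤ D a b x s := by
      intro s hs
      by_cases hsx : s = x
      · rw [hsx, D_self]
      by_cases hsz : s = z
      · rw [hsz]; exact ho.xz.le
      by_cases g1 : D a b x s = 0
      · rw [g1]
      have g2 : D a b s z ≠ 0 := by
        intro g
        exact hP s hs hsz (by rw [D_comm, g, neg_zero])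
      exact (obt_st h hb ho hs hsx hsz g1 g2).1.le
    have e : D a b v w * D a b x u + D a b w u * D a b x v + D a b u v * D a b x w = 0 := by
      unfold D; ring
    have p1 := mul_nonneg h2.le (hall u hu)
    have p2 := mul_nonneg h3.le (hall v hv)
    have p3 := mul_nonneg h1.le (hall w hw)
    have q1 : D a b x u = 0 := by
      have : D a b v w * D a b x u = 0 := by linarith
      rcases mul_eq_zero.1 this with g | g
      · linarith
      · exact g
    have q2 : D a b x v = 0 := by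
      have : D a b w u * D a b x v = 0 := by linarith
      rcases mul_eq_zero.1 this with g | g
      · linarith
      · exact g
    have := par2 h hx (x := u) (y := v) q1 q2
    linarith

/-- the first lines of the obtuse maximum triples -/
lemma obt_first_elem (h : CP a b q r T) (hb : Bd a b T A) {x y z x' y' z' : ι}
    (ho : Obt a b T A x y z) (ho' : Obt a b T A x' y' z') :
    x' = x ∨ (x' ≠ z ∧ D a b z x' = 0) ∨
      (∃ w ∈ T, w ≠ x ∧ D a b x w = 0 ∧ IsFirst a b T w x') := by
  have hx := ho.mx.hx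
  have hz := ho.mx.hz
  have hx' := ho'.mx.hx
  have hy' := ho'.mx.hy
  have hz' := ho'.mx.hz
  by_cases c1 : x' = x
  · exact Or.inl c1
  by_cases c2 : x' = z
  · exfalso
    have key : ∀ s ∈ T, 0 < D a b z s → D a b x s = 0 := by
      intro s hs hzs
      by_contra g1
      have hsx : s ≠ x := by
        rintro rfl
        rw [D_comm] at hzs
        linarith [ho.xz]
      have hsz : s ≠ z := by
        rintro rfl
        rw [D_self] at hzs
        exact lt_irrefl _ hzs
      have g2 : D a b s z ≠ 0 := by rw [D_comm]; exact neg_ne_zero.2 hzs.ne'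
      have := (obt_st h hb ho hs hsx hsz g1 g2).2
      rw [D_comm] at this
      linarith
    have e1 := ho'.xy
    have e2 := ho'.xz
    rw [c2] at e1 e2
    have := par2 h hx (key y' hy' e1) (key z' hz' e2)
    linarith [ho'.yz]
  by_cases c3 : D a b z x' = 0
  · exact Or.inr (Or.inl ⟨c2, c3⟩)
  by_cases c4 : D a b x x' = 0
  · exfalso
    obtain ⟨l, hl, ha1, hb1⟩ := par h hx hx' (Ne.symm c1) c4
    have key : ∀ s ∈ T, 0 < D a b x' s → D a b z s = 0 := by
      intro s hs hxs
      have e : D a b x' s = l * D a b x s := by unfold D; rw [ha1, hb1]; ring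
      have hneg : D a b x s < 0 := by
        by_contra hn
        push Not at hn
        rw [e] at hxs
        have := mul_nonneg (by linarith : 0 ≤ -l) hn
        linarith
      by_contra g2
      have hsx : s ≠ x := by
        rintro rfl
        rw [D_self] at hneg
        exact lt_irrefl _ hneg
      have hsz : s ≠ z := by
        rintro rfl
        linarith [ho.xz]
      have := (obt_st h hb ho hs hsx hsz hneg.ne
        (by rw [D_comm]; exact neg_ne_zero.2 g2)).1
      linarith
    have := par2 h hz (key y' hy' ho'.xy) (key z' hz' ho'.xz)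
    linarith [ho'.yz]
  · have s1 := obt_st h hb ho hx' c1 c2 c4 (by rw [D_comm]; exact neg_ne_zero.2 c3)
    have hzx : x ≠ z' := by
      rintro rfl
      have := ho'.xz
      rw [D_comm] at this
      linarith [s1.1]
    have g : D a b x z' = 0 := by
      by_contra g
      have := (obt_st h hb ho' hx (Ne.symm c1) hzx
        (by rw [D_comm]; exact neg_ne_zero.2 c4) g).1
      rw [D_comm] at this
      linarith [s1.1]
    exact Or.inr (Or.inr ⟨z', hz', hzx.symm, g, obt_first h hb ho'⟩)

lemma orient {x y z : ι} (h : Mx a b T A x y z) :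
    ∃ u v w : ι, ({x, y, z} : Set ι) = {u, v, w} ∧ Mx a b T A u v w ∧
      ((0 < D a b u v ∧ 0 < D a b v w ∧ 0 < D a b w u) ∨ Obt a b T A u v w) := by
  rcases lt_or_gt_of_ne h.xy with p | p <;> rcases lt_or_gt_of_ne h.yz with s | s <;>
    rcases lt_or_gt_of_ne h.zx with t | t
  · refine ⟨z, y, x, ?_, h.rev, Or.inl ⟨?_, ?_, ?_⟩⟩
    · ext e; simp only [Set.mem_insert_iff, Set.mem_singleton_iff]; tauto
    · rw [D_comm]; linarith
    · rw [D_comm]; linarith
    · rw [D_comm]; linarith
  · refine ⟨z, y, x, ?_, h.rev, Or.inr ⟨h.rev, ?_, ?_, ?_⟩⟩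
    · ext e; simp only [Set.mem_insert_iff, Set.mem_singleton_iff]; tauto
    · rw [D_comm]; linarith
    · rw [D_comm]; linarith
    · linarith
  · refine ⟨y, x, z, ?_, h.rev.rot, Or.inr ⟨h.rev.rot, ?_, ?_, ?_⟩⟩
    · ext e; simp only [Set.mem_insert_iff, Set.mem_singleton_iff]; tauto
    · rw [D_comm]; linarith
    · rw [D_comm]; linarith
    · linarith
  · refine ⟨y, z, x, ?_, h.rot, Or.inr ⟨h.rot, ?_, ?_, ?_⟩⟩
    · ext e; simp only [Set.mem_insert_iff, Set.mem_singleton_iff]; tauto
    · linarith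
    · linarith
    · rw [D_comm]; linarith
  · refine ⟨x, z, y, ?_, h.rev.rot.rot, Or.inr ⟨h.rev.rot.rot, ?_, ?_, ?_⟩⟩
    · ext e; simp only [Set.mem_insert_iff, Set.mem_singleton_iff]; tauto
    · rw [D_comm]; linarith
    · rw [D_comm]; linarith
    · linarith
  · refine ⟨z, x, y, ?_, h.rot.rot, Or.inr ⟨h.rot.rot, ?_, ?_, ?_⟩⟩
    · ext e; simp only [Set.mem_insert_iff, Set.mem_singleton_iff]; tauto
    · linarith
    · linarith
    · rw [D_comm]; linarith
  · refine ⟨x, y, z, rfl, h, Or.inr ⟨h, ?_, ?_, ?_⟩⟩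
    · linarith
    · linarith
    · rw [D_comm]; linarith
  · exact ⟨x, y, z, rfl, h, Or.inl ⟨p, s, t⟩⟩

open Classical in
theorem acute_count (h : CP a b q r T) (hA0 : 0 ≤ A) (hb : Bd a b T A)
    (M : Finset (Finset ι))
    (hM : ∀ t ∈ M, ∃ x y z, (↑t : Set ι) = {x, y, z} ∧ Mx a b T A x y z ∧
      0 < D a b x y ∧ 0 < D a b y z ∧ 0 < D a b z x) :
    3 * M.card ≤ 5 * T.card := by
  have h1 : ∀ v, ∃ t : Finset ι, ∀ w ∈ T, ∀ u ∈ T, IsLast a b T v w → IsFirst a b T v u →
      ({v, w, u} : Finset ι) = t := by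
    intro v
    by_cases hc : ∃ w ∈ T, ∃ u ∈ T, IsLast a b T v w ∧ IsFirst a b T v u
    · obtain ⟨w, hw, u, hu, g1, g2⟩ := hc
      refine ⟨{v, w, u}, fun w' hw' u' hu' g1' g2' => ?_⟩
      rw [last_unique hw' hw g1' g1, first_unique hu' hu g2' g2]
    · exact ⟨∅, fun w hw u hu g1 g2 => absurd ⟨w, hw, u, hu, g1, g2⟩ hc⟩
  have h2 : ∀ v, ∃ t : Finset ι, ∀ w ∈ T, ∀ u ∈ T, IsLast a b T v w → IsLast a b T w u →
      ({v, w, u} : Finset ι) = t := by
    intro v
    by_cases hc : ∃ w ∈ T, ∃ u ∈ T, IsLast a b T v w ∧ IsLast a b T w u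
    · obtain ⟨w, hw, u, hu, g1, g2⟩ := hc
      refine ⟨{v, w, u}, fun w' hw' u' hu' g1' g2' => ?_⟩
      have e1 := last_unique hw' hw g1' g1
      subst e1
      rw [last_unique hu' hu g2' g2]
    · exact ⟨∅, fun w hw u hu g1 g2 => absurd ⟨w, hw, u, hu, g1, g2⟩ hc⟩
  have h3 : ∀ v, ∃ t : Finset ι, ∀ w ∈ T, ∀ u ∈ T, IsFirst a b T v w → IsFirst a b T w u →
      ({v, w, u} : Finset ι) = t := by
    intro v
    by_cases hc : ∃ w ∈ T, ∃ u ∈ T, IsFirst a b T v w ∧ IsFirst a b T w u
    · obtain ⟨w, hw, u, hu, g1, g2⟩ := hc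
      refine ⟨{v, w, u}, fun w' hw' u' hu' g1' g2' => ?_⟩
      have e1 := first_unique hw' hw g1' g1
      subst e1
      rw [first_unique hu' hu g2' g2]
    · exact ⟨∅, fun w hw u hu g1 g2 => absurd ⟨w, hw, u, hu, g1, g2⟩ hc⟩
  choose f1 hf1 using h1
  choose f2 hf2 using h2
  choose f3 hf3 using h3
  set M2 := M.filter (fun t : Finset ι => ∃ x y z, (↑t : Set ι) = {x, y, z} ∧ Mx a b T A x y z ∧
    IsLast a b T x y ∧ IsLast a b T y z ∧ IsLast a b T z x) with hM2
  set M3 := M.filter (fun t : Finset ι => ∃ x y z, (↑t : Set ι) = {x, y, z} ∧ Mx a b T A x y z ∧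
    IsFirst a b T x y ∧ IsFirst a b T y z ∧ IsFirst a b T z x) with hM3
  have rot1 : ∀ x y z : ι, ({x, y, z} : Finset ι) = {y, z, x} := by
    intro x y z
    ext s; simp only [Finset.mem_insert, Finset.mem_singleton]; tauto
  have rot2 : ∀ x y z : ι, ({x, y, z} : Finset ι) = {z, x, y} := by
    intro x y z
    ext s; simp only [Finset.mem_insert, Finset.mem_singleton]; tauto
  have key2 : ∀ t ∈ M2, ∀ v ∈ t, t = f2 v ∧ v ∈ T ∧ t.card = 3 := by
    intro t ht v hv
    obtain ⟨-, x, y, z, e, hm, c1, c2, c3⟩ := Finset.mem_filter.1 ht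
    have ht' : t = {x, y, z} := by apply Finset.coe_injective; rw [e]; simp
    have hc : t.card = 3 := by
      rw [ht', Finset.card_eq_three]
      exact ⟨x, y, z, ne_of_D hm.xy, (ne_of_D hm.zx).symm, ne_of_D hm.yz, rfl⟩
    rw [ht', Finset.mem_insert, Finset.mem_insert, Finset.mem_singleton] at hv
    rcases hv with rfl | rfl | rfl
    · exact ⟨by rw [ht', hf2 v y hm.hy z hm.hz c1 c2], hm.hx, hc⟩
    · exact ⟨by rw [ht', rot1 x v z, hf2 v z hm.hz x hm.hx c2 c3], hm.hy, hc⟩
    · exact ⟨by rw [ht', rot2 x y v, hf2 v x hm.hx y hm.hy c3 c1], hm.hz, hc⟩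
  have key3 : ∀ t ∈ M3, ∀ v ∈ t, t = f3 v ∧ v ∈ T ∧ t.card = 3 := by
    intro t ht v hv
    obtain ⟨-, x, y, z, e, hm, c1, c2, c3⟩ := Finset.mem_filter.1 ht
    have ht' : t = {x, y, z} := by apply Finset.coe_injective; rw [e]; simp
    have hc : t.card = 3 := by
      rw [ht', Finset.card_eq_three]
      exact ⟨x, y, z, ne_of_D hm.xy, (ne_of_D hm.zx).symm, ne_of_D hm.yz, rfl⟩
    rw [ht', Finset.mem_insert, Finset.mem_insert, Finset.mem_singleton] at hv
    rcases hv with rfl | rfl | rfl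
    · exact ⟨by rw [ht', hf3 v y hm.hy z hm.hz c1 c2], hm.hx, hc⟩
    · exact ⟨by rw [ht', rot1 x v z, hf3 v z hm.hz x hm.hx c2 c3], hm.hy, hc⟩
    · exact ⟨by rw [ht', rot2 x y v, hf3 v x hm.hx y hm.hy c3 c1], hm.hz, hc⟩
  have cnt : ∀ (N : Finset (Finset ι)) (f : ι → Finset ι),
      (∀ t ∈ N, ∀ v ∈ t, t = f v ∧ v ∈ T ∧ t.card = 3) → (∀ t ∈ N, t.Nonempty) →
      3 * N.card ≤ T.card := by
    intro N f hN hne
    have hdis : ∀ t ∈ N, ∀ t' ∈ N, t ≠ t' → Disjoint (id t) (id t') := by
      intro t ht t' ht' hne'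
      rw [Finset.disjoint_left]
      intro v hv hv'
      exact hne' ((hN t ht v hv).1.trans (hN t' ht' v hv').1.symm)
    have e1 := Finset.card_biUnion hdis
    have e2 : ∑ t ∈ N, (id t : Finset ι).card = N.card * 3 := by
      rw [Finset.sum_const_nat]
      intro t ht
      obtain ⟨v, hv⟩ := hne t ht
      exact (hN t ht v hv).2.2
    have e3 : N.biUnion id ⊆ T := by
      intro v hv
      rw [Finset.mem_biUnion] at hv
      obtain ⟨t, ht, hv⟩ := hv
      exact (hN t ht v hv).2.1
    have e4 := Finset.card_le_card e3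
    rw [e1, e2] at e4
    linarith
  have ne_of : ∀ t ∈ M, t.Nonempty := by
    intro t ht
    obtain ⟨x, y, z, e, -⟩ := hM t ht
    refine ⟨x, ?_⟩
    rw [← Finset.mem_coe, e]
    simp
  have n2 := cnt M2 f2 key2 (fun t ht => ne_of t (Finset.mem_filter.1 ht).1)
  have n3 := cnt M3 f3 key3 (fun t ht => ne_of t (Finset.mem_filter.1 ht).1)
  have hsub : M ⊆ T.image f1 ∪ M2 ∪ M3 := by
    intro t ht
    obtain ⟨x, y, z, e, hm, hxy, hyz, hzx⟩ := hM t ht
    have ht' : t = {x, y, z} := by apply Finset.coe_injective; rw [e]; simp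
    have c1 := acute_ext h hA0 hb hm hxy hyz hzx
    have c2 := acute_ext h hA0 hb hm.rot hyz hzx hxy
    have c3 := acute_ext h hA0 hb hm.rot.rot hzx hxy hyz
    rw [Finset.mem_union, Finset.mem_union]
    rcases c1 with c1 | c1 <;> rcases c2 with c2 | c2 <;> rcases c3 with c3 | c3
    · left; right
      exact Finset.mem_filter.2 ⟨ht, x, y, z, e, hm, c3, c1, c2⟩
    · left; left
      exact Finset.mem_image.2 ⟨z, hm.hz, by rw [ht', rot2 x y z, hf1 z x hm.hx y hm.hy c2 c3]⟩
    · left; left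
      exact Finset.mem_image.2 ⟨y, hm.hy, by rw [ht', rot1 x y z, hf1 y z hm.hz x hm.hx c1 c2]⟩
    · left; left
      exact Finset.mem_image.2 ⟨y, hm.hy, by rw [ht', rot1 x y z, hf1 y z hm.hz x hm.hx c1 c2]⟩
    · left; left
      exact Finset.mem_image.2 ⟨x, hm.hx, by rw [ht', hf1 x y hm.hy z hm.hz c3 c1]⟩
    · left; left
      exact Finset.mem_image.2 ⟨z, hm.hz, by rw [ht', rot2 x y z, hf1 z x hm.hx y hm.hy c2 c3]⟩
    · left; left
      exact Finset.mem_image.2 ⟨x, hm.hx, by rw [ht', hf1 x y hm.hy z hm.hz c3 c1]⟩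
    · right
      refine Finset.mem_filter.2 ⟨ht, x, z, y, ?_, hm.rev.rot.rot, c1, c3, c2⟩
      rw [e]
      ext s; simp only [Set.mem_insert_iff, Set.mem_singleton_iff]; tauto
  have g0 := Finset.card_le_card hsub
  have g1 := Finset.card_union_le (T.image f1 ∪ M2) M3
  have g2 := Finset.card_union_le (T.image f1) M2
  have g3 : (T.image f1).card ≤ T.card := Finset.card_image_le
  omega

open Classical in
theorem obt_count (h : CP a b q r T) (hb : Bd a b T A) {x y z : ι}
    (ho : Obt a b T A x y z) (M : Finset (Finset ι))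
    (hM : ∀ t ∈ M, ∃ x y z, (↑t : Set ι) = {x, y, z} ∧ Obt a b T A x y z) :
    M.card ≤ 2 * T.card := by
  have h1 : ∀ v, ∃ g : ι → Finset ι, ∀ w ∈ T, IsLast a b T v w →
      ∀ u, ({v, u, w} : Finset ι) = g u := by
    intro v
    by_cases hc : ∃ w ∈ T, IsLast a b T v w
    · obtain ⟨w, hw, g1⟩ := hc
      refine ⟨fun u => {v, u, w}, fun w' hw' g1' u => ?_⟩
      rw [last_unique hw' hw g1' g1]
    · exact ⟨fun _ => ∅, fun w hw g1 => absurd ⟨w, hw, g1⟩ hc⟩
  choose g hg using h1
  set X := T.filter (fun v => ∃ w u, Obt a b T A v w u)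
  have hX : X.card ≤ 2 := by
    set P1 := T.filter (fun v => v ≠ z ∧ D a b z v = 0)
    set P2 := T.filter (fun w => w ≠ x ∧ D a b x w = 0)
    have hsub : X ⊆ {x} ∪ P1 ∪ P2.biUnion (fun w => T.filter (fun v => IsFirst a b T w v)) := by
      intro v hv
      obtain ⟨hvT, w, u, ho'⟩ := Finset.mem_filter.1 hv
      rw [Finset.mem_union, Finset.mem_union]
      rcases obt_first_elem h hb ho ho' with c | ⟨c, c'⟩ | ⟨w', hw', c, c', c''⟩
      · left; left; rw [Finset.mem_singleton]; exact c
      · left; right; exact Finset.mem_filter.2 ⟨hvT, c, c'⟩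
      · right
        rw [Finset.mem_biUnion]
        exact ⟨w', Finset.mem_filter.2 ⟨hw', c, c'⟩, Finset.mem_filter.2 ⟨hvT, c''⟩⟩
    have par_unique : ∀ {v s t : ι}, v ∈ T → s ∈ T → t ∈ T → s ≠ v → t ≠ v →
        D a b v s = 0 → D a b v t = 0 → s = t := by
      intro v s t hv hs ht hsv htv e1 e2
      by_contra hne
      obtain ⟨l, hl, a1, b1⟩ := par h hv hs hsv.symm e1
      obtain ⟨m, hm, a2, b2⟩ := par h hv ht htv.symm e2
      obtain ⟨k, hk, a3, b3⟩ := par h hs ht hne (par2 h hv e1 e2)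
      have e := h.on t ht
      have e' := h.on s hs
      -- t = k s, s = l v, t = m v
      have on1 : m * (a v * q v + b v * r v) = k * l * (a v * q v + b v * r v) := by
        rw [a2, a1] at a3
        rw [b2, b1] at b3
        linear_combination (q v) * a3 + (r v) * b3
      rw [h.on v hv, mul_one, mul_one] at on1
      have : 0 < k * l := mul_pos_of_neg_of_neg hk hl
      linarith
    have c1 : P1.card ≤ 1 := by
      rw [Finset.card_le_one]
      intro s hs t ht
      obtain ⟨s1, s2, s3⟩ := Finset.mem_filter.1 hs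
      obtain ⟨t1, t2, t3⟩ := Finset.mem_filter.1 ht
      exact par_unique ho.mx.hz s1 t1 s2 t2 s3 t3
    have c2 : P2.card ≤ 1 := by
      rw [Finset.card_le_one]
      intro s hs t ht
      obtain ⟨s1, s2, s3⟩ := Finset.mem_filter.1 hs
      obtain ⟨t1, t2, t3⟩ := Finset.mem_filter.1 ht
      exact par_unique ho.mx.hx s1 t1 s2 t2 s3 t3
    have c12 : P1.card + P2.card ≤ 1 := by
      rcases P1.eq_empty_or_nonempty with e | ⟨v, hv⟩
      · rw [e, Finset.card_empty]; omega
      · rcases P2.eq_empty_or_nonempty with e | ⟨w, hw⟩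
        · rw [e, Finset.card_empty]; omega
        · obtain ⟨v1, v2, v3⟩ := Finset.mem_filter.1 hv
          obtain ⟨w1, w2, w3⟩ := Finset.mem_filter.1 hw
          exact (obt_not_both h hb ho w1 w2 w3 v1 v2 v3).elim
    have c3 : (P2.biUnion (fun w => T.filter (fun v => IsFirst a b T w v))).card ≤
        P2.card := by
      have := Finset.card_biUnion_le_card_mul P2
        (fun w => T.filter (fun v => IsFirst a b T w v)) 1 (by
          intro w _
          rw [Finset.card_le_one]
          intro s hs t ht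
          exact first_unique (Finset.mem_filter.1 hs).1 (Finset.mem_filter.1 ht).1
            (Finset.mem_filter.1 hs).2 (Finset.mem_filter.1 ht).2)
      omega
    refine le_trans (Finset.card_le_card hsub) (le_trans (Finset.card_union_le _ _) ?_)
    have c4 := Finset.card_union_le {x} P1
    rw [Finset.card_singleton] at c4
    omega
  have hsub : M ⊆ X.biUnion (fun v => T.image (g v)) := by
    intro t ht
    obtain ⟨x', y', z', e, ho'⟩ := hM t ht
    have ht' : t = {x', y', z'} := by apply Finset.coe_injective; rw [e]; simp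
    rw [Finset.mem_biUnion]
    refine ⟨x', Finset.mem_filter.2 ⟨ho'.mx.hx, y', z', ho'⟩, ?_⟩
    exact Finset.mem_image.2 ⟨y', ho'.mx.hy,
      by rw [ht', hg x' z' ho'.mx.hz (obt_last h hb ho') y']⟩
  refine le_trans (Finset.card_le_card hsub) ?_
  refine le_trans (Finset.card_biUnion_le_card_mul X _ T.card
    (fun v _ => Finset.card_image_le)) ?_
  exact Nat.mul_le_mul_right _ hX

/-- at most `2 n` maximum triangles -/
theorem cell_count (h : CP a b q r T) (hA0 : 0 ≤ A) (hb : Bd a b T A)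
    (M : Finset (Finset ι))
    (hM : ∀ t ∈ M, ∃ x y z, (↑t : Set ι) = {x, y, z} ∧ Mx a b T A x y z) :
    M.card ≤ 2 * T.card := by
  by_cases hO : ∃ x y z, Obt a b T A x y z
  · obtain ⟨x, y, z, ho⟩ := hO
    apply obt_count h hb ho M
    intro t ht
    obtain ⟨x', y', z', e, hm⟩ := hM t ht
    obtain ⟨u, v, w, e', hm', hc⟩ := orient hm
    refine ⟨u, v, w, e.trans e', ?_⟩
    rcases hc with ⟨c1, c2, c3⟩ | hc
    · exact (no_acute_of_obt h hb ho hm'.hx hm'.hy hm'.hz c1 c2 c3).elim
    · exact hc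
  · suffices hs : 3 * M.card ≤ 5 * T.card by omega
    apply acute_count h hA0 hb M
    intro t ht
    obtain ⟨x', y', z', e, hm⟩ := hM t ht
    obtain ⟨u, v, w, e', hm', hc⟩ := orient hm
    refine ⟨u, v, w, e.trans e', hm', ?_⟩
    rcases hc with hc | hc
    · exact hc
    · exact absurd ⟨u, v, w, hc⟩ hO

end Pool.Agent.MP27bb56v
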