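import Pool.Agent.Lib.MP_27bb56_h2.Abs

/-!
Maximum area triangles in tangent arrangements of a conic: every maximum triangle is charged to a
line, and every line is charged at most once.
-/

namespace Pool.Agent.MP27bb56c

variable {ι : Type*} {κ : ℝ} {m n : ι → ℝ} {T : Finset ι} {A : ℝ}

lemma ext_mixed' (hmax : ∀ x y z, Adm 1 m n T x y z → FF 1 m n x y z ≤ A)
    {x y z : ι} (h : Adm 1 m n T x y z) (hA : FF 1 m n x y z = A)
    (ha : 0 < tau 1 m n x y) (hb : 0 < tau 1 m n y z) (hc : tau 1 m n z x < 0) :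
    ∀ u ∈ T, gg 1 m n z u ≠ 0 → tau 1 m n z x ≤ tau 1 m n z u := by
  have h1 := ext_mixed (m := m) (n := fun i => - n i) (T := T) (A := A)
    (fun x y z hxyz => by rw [FF_neg]; exact hmax x y z (Adm_of_neg hxyz))
    (x := z) (y := y) (z := x) (Adm_neg h.rev) (by rw [FF_neg, FF_rev]; exact hA)
    (by rw [tau_neg, tau_comm y z, neg_neg]; exact hb)
    (by rw [tau_neg, tau_comm x y, neg_neg]; exact ha)
    (by rw [tau_neg, tau_comm z x, neg_neg]; exact hc)
  intro u hu hg
  have h2 := h1 u hu (by rw [gg_neg]; exact hg)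
  rw [tau_neg, tau_neg] at h2
  linarith

/-- all further lines, except parallels of `x` and of `z`, lie between `x` and `z` -/
def St (m n : ι → ℝ) (T : Finset ι) (x z : ι) : Prop :=
  ∀ s ∈ T, s ≠ x → s ≠ z → gg 1 m n x s ≠ 0 → gg 1 m n s z ≠ 0 →
    0 < tau 1 m n x s ∧ 0 < tau 1 m n s z

lemma st_mixed (hd : ∀ i ∈ T, ∀ j ∈ T, i ≠ j → dd m n i j ≠ 0)
    (hmax : ∀ x y z, Adm 1 m n T x y z → FF 1 m n x y z ≤ A)
    {x y z : ι} (h : Adm 1 m n T x y z) (hA : FF 1 m n x y z = A)
    (ha : 0 < tau 1 m n x y) (hb : 0 < tau 1 m n y z) (hc : tau 1 m n z x < 0) :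
    St m n T x z := by
  intro s hs hsx hsz g1 g2
  have adm : Adm 1 m n T x s z := ⟨h.hx, hs, h.hz, hsx.symm, hsz, h.zx, g1, g2, h.gzx⟩
  have e1 := ext_mixed hmax h hA ha hb hc s hs g1
  have e2 := ext_mixed' hmax h hA ha hb hc s hs (by rw [gg_comm]; exact g2)
  have p0 := tau_ne hd h.hx hs hsx.symm g1
  have r0 := tau_ne hd hs h.hz hsz g2
  have s1 := sum_tau h.gxy h.gyz h.gzx
  have s2 := sum_tau adm.gxy adm.gyz adm.gzx
  have hle := hmax x s z adm
  rw [← hA] at hle
  unfold FF at hle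
  rw [tau_comm z x] at e1
  rw [tau_comm s z] at e2
  set a := tau 1 m n x y
  set b := tau 1 m n y z
  set c := tau 1 m n z x
  set p := tau 1 m n x s
  set r := tau 1 m n s z
  rcases lt_or_gt_of_ne p0 with hp | hp
  · exfalso
    rcases lt_or_gt_of_ne r0 with hr | hr
    · have hpr : 0 < p * r := mul_pos_of_neg_of_neg hp hr
      have h1 : 1 < p * r := by
        by_contra hn
        push Not at hn
        nlinarith [mul_nonneg_of_nonpos_of_nonpos hc.le (by linarith : p * r - 1 ≤ 0)]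
      have h2 : a * b < 1 := by
        by_contra hn
        push Not at hn
        nlinarith [mul_nonneg_of_nonpos_of_nonpos hc.le (by linarith : 1 - a * b ≤ 0)]
      have hab : 0 < a * b := mul_pos ha hb
      rw [abs_mul, abs_mul (a * b), abs_of_pos hpr, abs_of_pos hab, abs_of_neg hc] at hle
      nlinarith
    · have h3 : 0 < p * (r * c - 1) := by
        apply mul_pos_of_neg_of_neg hp
        nlinarith [mul_pos hr (neg_pos.2 hc)]
      nlinarith
  · rcases lt_or_gt_of_ne r0 with hr | hr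
    · exfalso
      have h3 : 0 < r * (p * c - 1) := by
        apply mul_pos_of_neg_of_neg hr
        nlinarith [mul_pos hp (neg_pos.2 hc)]
      nlinarith
    · exact ⟨hp, hr⟩

/-- the maximum triangle `v, w, u` is charged to `v` -/
def Ch (κ : ℝ) (m n : ι → ℝ) (T : Finset ι) (A : ℝ) (v w u : ι) : Prop :=
  Adm κ m n T v w u ∧ FF κ m n v w u = A ∧ nn κ m n v ≠ 0 ∧
  ((0 < tau κ m n v w ∧ tau κ m n v u < 0 ∧ MaxP κ m n T v w ∧ MinP κ m n T v u) ∨
   (κ = 1 ∧ 0 < tau κ m n v w ∧ MaxP κ m n T v w ∧ St m n T v w ∧ 0 < tau κ m n v u ∧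
      0 < tau κ m n u w ∧ tau κ m n v u ≤ tau κ m n u w) ∨
   (κ = 1 ∧ 0 < tau κ m n w v ∧ MinP κ m n T v w ∧ St m n T w v ∧ 0 < tau κ m n w u ∧
      0 < tau κ m n u v ∧ tau κ m n u v < tau κ m n w u))

/-- the triangle is charged to one of its lines -/
def CC (κ : ℝ) (m n : ι → ℝ) (T : Finset ι) (A : ℝ) (x y z : ι) : Prop :=
  Ch κ m n T A x y z ∨ Ch κ m n T A x z y ∨ Ch κ m n T A y x z ∨
    Ch κ m n T A y z x ∨ Ch κ m n T A z x y ∨ Ch κ m n T A z y x

lemma CC.rot {x y z : ι} (h : CC κ m n T A y z x) : CC κ m n T A x y z := by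
  unfold CC at *; tauto

lemma CC.rev {x y z : ι} (h : CC κ m n T A z y x) : CC κ m n T A x y z := by
  unfold CC at *; tauto

lemma nn_ne (hd : ∀ i ∈ T, ∀ j ∈ T, i ≠ j → dd m n i j ≠ 0) {x y : ι} (hx : x ∈ T)
    (hy : y ∈ T) (hxy : x ≠ y) : nn 1 m n x ≠ 0 := by
  intro h0
  have h1 : m x = 0 ∧ n x = 0 := by
    unfold nn at h0
    constructor
    · nlinarith [sq_nonneg (m x), sq_nonneg (n x)]
    · nlinarith [sq_nonneg (m x), sq_nonneg (n x)]
  apply hd x hx y hy hxy
  unfold dd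
  rw [h1.1, h1.2]; ring

lemma cc_nonpos (hκ : κ ≤ 0) (hd : ∀ i ∈ T, ∀ j ∈ T, i ≠ j → dd m n i j ≠ 0)
    (hmax : ∀ x y z, Adm κ m n T x y z → FF κ m n x y z ≤ A)
    {x y z : ι} (h : Adm κ m n T x y z) (hA : FF κ m n x y z = A) : CC κ m n T A x y z := by
  have core : ∀ {x y z : ι}, Adm κ m n T x y z → FF κ m n x y z = A →
      0 < tau κ m n x y → 0 < tau κ m n y z → CC κ m n T A x y z := by
    intro x y z h hA ha hb
    obtain ⟨h1, h2⟩ := ext_nonpos hκ hmax h hA ha hb
    have h3 := ext_nonpos' hκ hmax h hA ha hb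
    exact Or.inr (Or.inr (Or.inr (Or.inl ⟨h.rot, by rw [FF_rot]; exact hA, h1,
      Or.inl ⟨hb, by rw [tau_comm]; linarith, h2, h3⟩⟩)))
  have a0 := tau_ne hd h.hx h.hy h.xy h.gxy
  have b0 := tau_ne hd h.hy h.hz h.yz h.gyz
  have c0 := tau_ne hd h.hz h.hx h.zx h.gzx
  have hA1 : FF κ m n y z x = A := by rw [FF_rot]; exact hA
  have hA2 : FF κ m n z x y = A := by rw [FF_rot, FF_rot]; exact hA
  have hB : FF κ m n z y x = A := by rw [FF_rev]; exact hA
  have hB1 : FF κ m n y x z = A := by rw [FF_rot]; exact hB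
  have hB2 : FF κ m n x z y = A := by rw [FF_rot, FF_rot]; exact hB
  rcases lt_or_gt_of_ne a0 with ha | ha <;> rcases lt_or_gt_of_ne b0 with hb | hb
  · apply CC.rev
    apply core h.rev hB
    · rw [tau_comm]; linarith
    · rw [tau_comm]; linarith
  · rcases lt_or_gt_of_ne c0 with hc | hc
    · apply CC.rev
      apply CC.rot
      apply core h.rev.rot hB1
      · rw [tau_comm]; linarith
      · rw [tau_comm]; linarith
    · apply CC.rot
      exact core h.rot hA1 hb hc
  · rcases lt_or_gt_of_ne c0 with hc | hc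
    · apply CC.rev
      apply CC.rot
      apply CC.rot
      apply core h.rev.rot.rot hB2
      · rw [tau_comm]; linarith
      · rw [tau_comm]; linarith
    · apply CC.rot
      apply CC.rot
      exact core h.rot.rot hA2 hc ha
  · exact core h hA ha hb

lemma cc_one (hd : ∀ i ∈ T, ∀ j ∈ T, i ≠ j → dd m n i j ≠ 0)
    (hmax : ∀ x y z, Adm 1 m n T x y z → FF 1 m n x y z ≤ A)
    {x y z : ι} (h : Adm 1 m n T x y z) (hA : FF 1 m n x y z = A) : CC 1 m n T A x y z := by
  have core1 : ∀ {x y z : ι}, Adm 1 m n T x y z → FF 1 m n x y z = A →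
      0 < tau 1 m n x y → 0 < tau 1 m n y z → tau 1 m n z x < 0 → CC 1 m n T A x y z := by
    intro x y z h hA ha hb hc
    have h2 := ext_mixed hmax h hA ha hb hc
    have h3 := ext_mixed' hmax h hA ha hb hc
    have h4 := st_mixed hd hmax h hA ha hb hc
    have hq : 0 < tau 1 m n x z := by rw [tau_comm z x]; linarith
    rcases le_or_gt (tau 1 m n x y) (tau 1 m n y z) with hab | hab
    · exact Or.inr (Or.inl ⟨h.rev.rot.rot, by rw [FF_rot, FF_rot, FF_rev]; exact hA,
        nn_ne hd h.hx h.hy h.xy, Or.inr (Or.inl ⟨rfl, hq, h2, h4, ha, hb, hab⟩)⟩)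
    · exact Or.inr (Or.inr (Or.inr (Or.inr (Or.inl ⟨h.rot.rot,
        by rw [FF_rot, FF_rot]; exact hA, nn_ne hd h.hz h.hx h.zx,
        Or.inr (Or.inr ⟨rfl, hq, h3, h4, ha, hb, hab⟩)⟩))))
  have core2' : ∀ {x y z : ι}, Adm 1 m n T x y z → FF 1 m n x y z = A →
      0 < tau 1 m n x y → 0 < tau 1 m n y z → 0 < tau 1 m n z x →
      tau 1 m n y z ≤ tau 1 m n z x → tau 1 m n y z ≤ tau 1 m n x y →
      CC 1 m n T A x y z := by
    intro x y z h hA ha hb hc hcb hab
    have h2 := ext_pos hmax h hA ha hb hc hcb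
    have h3 := ext_pos' hmax h hA ha hb hc hab
    exact Or.inl ⟨h, hA, nn_ne hd h.hx h.hy h.xy,
      Or.inl ⟨ha, by rw [tau_comm]; linarith, h3, h2⟩⟩
  have core2 : ∀ {x y z : ι}, Adm 1 m n T x y z → FF 1 m n x y z = A →
      0 < tau 1 m n x y → 0 < tau 1 m n y z → 0 < tau 1 m n z x → CC 1 m n T A x y z := by
    intro x y z h hA ha hb hc
    have hA1 : FF 1 m n y z x = A := by rw [FF_rot]; exact hA
    have hA2 : FF 1 m n z x y = A := by rw [FF_rot, FF_rot]; exact hA
    rcases le_total (tau 1 m n y z) (tau 1 m n z x) with h1 | h1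
    · rcases le_total (tau 1 m n y z) (tau 1 m n x y) with h2 | h2
      · exact core2' h hA ha hb hc h1 h2
      · apply CC.rot
        apply CC.rot
        exact core2' h.rot.rot hA2 hc ha hb h2 (le_trans h2 h1)
    · rcases le_total (tau 1 m n z x) (tau 1 m n x y) with h2 | h2
      · apply CC.rot
        exact core2' h.rot hA1 hb hc ha h2 h1
      · apply CC.rot
        apply CC.rot
        exact core2' h.rot.rot hA2 hc ha hb (le_trans h2 h1) h2
  have a0 := tau_ne hd h.hx h.hy h.xy h.gxy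
  have b0 := tau_ne hd h.hy h.hz h.yz h.gyz
  have c0 := tau_ne hd h.hz h.hx h.zx h.gzx
  have hA1 : FF 1 m n y z x = A := by rw [FF_rot]; exact hA
  have hA2 : FF 1 m n z x y = A := by rw [FF_rot, FF_rot]; exact hA
  have hB : FF 1 m n z y x = A := by rw [FF_rev]; exact hA
  have hB1 : FF 1 m n y x z = A := by rw [FF_rot]; exact hB
  have hB2 : FF 1 m n x z y = A := by rw [FF_rot, FF_rot]; exact hB
  rcases lt_or_gt_of_ne a0 with ha | ha <;> rcases lt_or_gt_of_ne b0 with hb | hb <;>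
    rcases lt_or_gt_of_ne c0 with hc | hc
  · apply CC.rev
    apply core2 h.rev hB
    · rw [tau_comm]; linarith
    · rw [tau_comm]; linarith
    · rw [tau_comm]; linarith
  · apply CC.rev
    apply core1 h.rev hB
    · rw [tau_comm]; linarith
    · rw [tau_comm]; linarith
    · rw [tau_comm]; linarith
  · apply CC.rev
    apply CC.rot
    apply core1 h.rev.rot hB1
    · rw [tau_comm]; linarith
    · rw [tau_comm]; linarith
    · rw [tau_comm]; linarith
  · apply CC.rot
    exact core1 h.rot hA1 hb hc ha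
  · apply CC.rev
    apply CC.rot
    apply CC.rot
    apply core1 h.rev.rot.rot hB2
    · rw [tau_comm]; linarith
    · rw [tau_comm]; linarith
    · rw [tau_comm]; linarith
  · apply CC.rot
    apply CC.rot
    exact core1 h.rot.rot hA2 hc ha hb
  · exact core1 h hA ha hb hc
  · exact core2 h hA ha hb hc

/-! uniqueness of the charges -/

lemma max_unique (hd : ∀ i ∈ T, ∀ j ∈ T, i ≠ j → dd m n i j ≠ 0) {v w w' : ι}
    (hn : nn κ m n v ≠ 0) (hw : w ∈ T) (hw' : w' ∈ T) (g : gg κ m n v w ≠ 0)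
    (g' : gg κ m n v w' ≠ 0) (h : MaxP κ m n T v w) (h' : MaxP κ m n T v w') : w = w' := by
  by_contra hne
  exact hd w hw w' hw' hne (tau_inj g g' hn (le_antisymm (h' w hw g) (h w' hw' g')))

lemma min_unique (hd : ∀ i ∈ T, ∀ j ∈ T, i ≠ j → dd m n i j ≠ 0) {v w w' : ι}
    (hn : nn κ m n v ≠ 0) (hw : w ∈ T) (hw' : w' ∈ T) (g : gg κ m n v w ≠ 0)
    (g' : gg κ m n v w' ≠ 0) (h : MinP κ m n T v w) (h' : MinP κ m n T v w') : w = w' := by
  by_contra hne
  exact hd w hw w' hw' hne (tau_inj g g' hn (le_antisymm (h w' hw' g') (h' w hw g)))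

lemma Adm.guv {x y z : ι} (h : Adm κ m n T x y z) : gg κ m n x z ≠ 0 := by
  rw [gg_comm]; exact h.gzx

lemma no12 (hd : ∀ i ∈ T, ∀ j ∈ T, i ≠ j → dd m n i j ≠ 0) {v w u w' u' : ι}
    (hn : nn 1 m n v ≠ 0) (h : Adm 1 m n T v w u) (h' : Adm 1 m n T v w' u')
    (a2 : tau 1 m n v u < 0) (a3 : MaxP 1 m n T v w)
    (b3 : MaxP 1 m n T v w') (b4 : St m n T v w') : False := by
  have e : w = w' := max_unique hd hn h.hy h'.hy h.gxy h'.gxy a3 b3
  subst e
  have := (b4 u h.hz h.zx h.yz.symm h.guv (by rw [gg_comm]; exact h.gyz)).1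
  linarith

lemma no13 (hd : ∀ i ∈ T, ∀ j ∈ T, i ≠ j → dd m n i j ≠ 0) {v w u w' u' : ι}
    (hn : nn 1 m n v ≠ 0) (h : Adm 1 m n T v w u) (h' : Adm 1 m n T v w' u')
    (a1 : 0 < tau 1 m n v w) (a4 : MinP 1 m n T v u)
    (b3 : MinP 1 m n T v w') (b4 : St m n T w' v) : False := by
  have e : u = w' := min_unique hd hn h.hz h'.hy h.guv h'.gxy a4 b3
  subst e
  have := (b4 w h.hy h.yz h.xy.symm (by rw [gg_comm]; exact h.gyz)
    (by rw [gg_comm]; exact h.gxy)).2
  rw [tau_comm v w] at this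
  linarith

lemma no23 (hd : ∀ i ∈ T, ∀ j ∈ T, i ≠ j → dd m n i j ≠ 0) {v w u w' u' : ι}
    (h : Adm 1 m n T v w u) (h' : Adm 1 m n T v w' u')
    (a1 : 0 < tau 1 m n v w) (a4 : St m n T v w)
    (b1 : 0 < tau 1 m n w' v) (b6 : 0 < tau 1 m n u' v) : False := by
  have c1 : tau 1 m n v w' < 0 := by rw [tau_comm]; linarith
  have c2 : tau 1 m n v u' < 0 := by rw [tau_comm]; linarith
  have n1 : w' ≠ w := by rintro rfl; linarith
  have n2 : u' ≠ w := by rintro rfl; linarith
  have g1 : gg 1 m n w' w = 0 := by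
    by_contra hg
    have := (a4 w' h'.hy h'.xy.symm n1 h'.gxy hg).1
    linarith
  have g2 : gg 1 m n u' w = 0 := by
    by_contra hg
    have := (a4 u' h'.hz h'.zx n2 h'.guv hg).1
    linarith
  have e := inj_id (κ := 1) (m := m) (n := n) w w' u'
  rw [gg_comm w' w, gg_comm u' w, g1, g2, mul_zero, mul_zero, sub_self] at e
  have h3 : nn 1 m n w ≠ 0 := nn_ne hd h.hy h.hz h.yz
  have h4 : dd m n w' u' ≠ 0 := hd w' h'.hy u' h'.hz h'.yz
  have h5 : nn 1 m n w * dd m n w' u' = 0 := by linarith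
  exact mul_ne_zero h3 h4 h5

open Classical in
theorem ch_unique (hd : ∀ i ∈ T, ∀ j ∈ T, i ≠ j → dd m n i j ≠ 0) {v w u w' u' : ι}
    (h : Ch κ m n T A v w u) (h' : Ch κ m n T A v w' u') :
    ({v, w, u} : Finset ι) = {v, w', u'} := by
  obtain ⟨adm, hF, hn, hc⟩ := h
  obtain ⟨adm', hF', -, hc'⟩ := h'
  rcases hc with ⟨a1, a2, a3, a4⟩ | ⟨k, a1, a3, a4, a5, a6, a7⟩ | ⟨k, a1, a3, a4, a5, a6, a7⟩ <;>
  rcases hc' with ⟨b1, b2, b3, b4⟩ | ⟨k', b1, b3, b4, b5, b6, b7⟩ |
    ⟨k', b1, b3, b4, b5, b6, b7⟩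
  · have e1 : w = w' := max_unique hd hn adm.hy adm'.hy adm.gxy adm'.gxy a3 b3
    have e2 : u = u' := min_unique hd hn adm.hz adm'.hz adm.guv adm'.guv a4 b4
    rw [e1, e2]
  · subst k'
    exact (no12 hd hn adm adm' a2 a3 b3 b4).elim
  · subst k'
    exact (no13 hd hn adm adm' a1 a4 b3 b4).elim
  · subst k
    exact (no12 hd hn adm' adm b2 b3 a3 a4).elim
  · subst k
    have e1 : w = w' := max_unique hd hn adm.hy adm'.hy adm.gxy adm'.gxy a3 b3
    subst e1
    have e2 : u = u' := by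
      have s1 := sum_tau adm.gxy adm.gyz adm.gzx
      have s2 := sum_tau adm'.gxy adm'.gyz adm'.gzx
      unfold FF at hF hF'
      rw [tau_comm u w, tau_comm v u] at s1 hF
      rw [tau_comm u' w, tau_comm v u'] at s2 hF'
      have hinj : tau 1 m n v u = tau 1 m n v u' → u = u' := by
        intro he
        by_contra hne
        exact hd u adm.hz u' adm'.hz hne (tau_inj adm.guv adm'.guv hn he)
      set q := tau 1 m n v w
      set a := tau 1 m n v u
      set b := tau 1 m n u w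
      set a' := tau 1 m n v u'
      set b' := tau 1 m n u' w
      have f1 : q * (a * b) = A := by
        rw [← hF]
        have : q * -b * -a = q * (a * b) := by ring
        rw [this, abs_of_pos (by positivity)]
      have f2 : q * (a' * b') = A := by
        rw [← hF']
        have : q * -b' * -a' = q * (a' * b') := by ring
        rw [this, abs_of_pos (by positivity)]
      have f3 : a * b = a' * b' := by
        apply mul_left_cancel₀ a1.ne'
        rw [f1, f2]
      have f4 : a + b = a' + b' := by linarith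
      have f5 : (a - a') * (a - b') = 0 := by
        have : (a - a') * (a - b') = a * a - a * (a' + b') + a' * b' := by ring
        rw [this, ← f4, ← f3]; ring
      apply hinj
      rcases mul_eq_zero.1 f5 with h | h
      · linarith
      · linarith
    rw [e2]
  · subst k
    exact (no23 hd adm adm' a1 a4 b1 b6).elim
  · subst k
    exact (no13 hd hn adm' adm b1 b4 a3 a4).elim
  · subst k
    exact (no23 hd adm' adm b1 b4 a1 a6).elim
  · subst k
    have e1 : w = w' := min_unique hd hn adm.hy adm'.hy adm.gxy adm'.gxy a3 b3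
    subst e1
    have e2 : u = u' := by
      have s1 := sum_tau adm.gxy adm.gyz adm.gzx
      have s2 := sum_tau adm'.gxy adm'.gyz adm'.gzx
      unfold FF at hF hF'
      rw [tau_comm w v] at s1 s2 hF hF'
      have hinj : tau 1 m n u v = tau 1 m n u' v → u = u' := by
        intro he
        by_contra hne
        rw [tau_comm v u, tau_comm v u'] at he
        exact hd u adm.hz u' adm'.hz hne (tau_inj adm.guv adm'.guv hn (neg_injective he))
      set q := tau 1 m n w v
      set a := tau 1 m n w u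
      set b := tau 1 m n u v
      set a' := tau 1 m n w u'
      set b' := tau 1 m n u' v
      have f1 : q * (a * b) = A := by
        rw [← hF]
        have : -q * a * b = -(q * (a * b)) := by ring
        rw [this, abs_neg, abs_of_pos (by positivity)]
      have f2 : q * (a' * b') = A := by
        rw [← hF']
        have : -q * a' * b' = -(q * (a' * b')) := by ring
        rw [this, abs_neg, abs_of_pos (by positivity)]
      have f3 : a * b = a' * b' := by
        apply mul_left_cancel₀ a1.ne'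
        rw [f1, f2]
      have f4 : a + b = a' + b' := by linarith
      have f5 : (b - a') * (b - b') = 0 := by
        have : (b - a') * (b - b') = b * b - b * (a' + b') + a' * b' := by ring
        rw [this, ← f4, ← f3]; ring
      apply hinj
      rcases mul_eq_zero.1 f5 with h | h
      · linarith
      · linarith
    rw [e2]

open Classical in
/-- the charged lines -/
noncomputable def CL (κ : ℝ) (m n : ι → ℝ) (T : Finset ι) (A : ℝ) : Finset ι :=
  T.filter (fun v => ∃ w u, Ch κ m n T A v w u)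

theorem charge_count (hκ : κ ≤ 0 ∨ κ = 1) (hd : ∀ i ∈ T, ∀ j ∈ T, i ≠ j → dd m n i j ≠ 0)
    (hmax : ∀ x y z, Adm κ m n T x y z → FF κ m n x y z ≤ A)
    (M : Finset (Finset ι))
    (hM : ∀ t ∈ M, ∃ x y z, (↑t : Set ι) = {x, y, z} ∧ Adm κ m n T x y z ∧
      FF κ m n x y z = A) :
    M.card ≤ (CL κ m n T A).card := by
  classical
  have hch : ∀ v, ∃ t : Finset ι, ∀ w u, Ch κ m n T A v w u → ({v, w, u} : Finset ι) = t := by
    intro v
    by_cases h : ∃ w u, Ch κ m n T A v w u
    · obtain ⟨w, u, hwu⟩ := h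
      exact ⟨{v, w, u}, fun w' u' h' => ch_unique hd h' hwu⟩
    · exact ⟨∅, fun w u h' => absurd ⟨w, u, h'⟩ h⟩
  choose f hf using hch
  have hsub : M ⊆ (CL κ m n T A).image f := by
    intro t ht
    obtain ⟨x, y, z, h1, adm, hF⟩ := hM t ht
    have ht' : t = {x, y, z} := by apply Finset.coe_injective; rw [h1]; simp
    have hc : CC κ m n T A x y z := by
      rcases hκ with h | h
      · exact cc_nonpos h hd hmax adm hF
      · subst h
        exact cc_one hd hmax adm hF
    have hh : ∃ v w u, ({x, y, z} : Finset ι) = {v, w, u} ∧ Ch κ m n T A v w u := by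
      rcases hc with h | h | h | h | h | h
      · exact ⟨x, y, z, rfl, h⟩
      · exact ⟨x, z, y, by rw [Finset.pair_comm], h⟩
      · exact ⟨y, x, z, by rw [Finset.insert_comm], h⟩
      · refine ⟨y, z, x, ?_, h⟩
        ext s; simp only [Finset.mem_insert, Finset.mem_singleton]; tauto
      · refine ⟨z, x, y, ?_, h⟩
        ext s; simp only [Finset.mem_insert, Finset.mem_singleton]; tauto
      · refine ⟨z, y, x, ?_, h⟩
        ext s; simp only [Finset.mem_insert, Finset.mem_singleton]; tauto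
    obtain ⟨v, w, u, hu1, hu2⟩ := hh
    rw [Finset.mem_image]
    refine ⟨v, Finset.mem_filter.2 ⟨hu2.1.hx, w, u, hu2⟩, ?_⟩
    rw [ht', hu1, hf v w u hu2]
  exact le_trans (Finset.card_le_card hsub) Finset.card_image_le

/-- the ellipse: at most `n` -/
theorem ellipse_count (hκ : κ = 1) (hd : ∀ i ∈ T, ∀ j ∈ T, i ≠ j → dd m n i j ≠ 0)
    (hmax : ∀ x y z, Adm κ m n T x y z → FF κ m n x y z ≤ A)
    (M : Finset (Finset ι))
    (hM : ∀ t ∈ M, ∃ x y z, (↑t : Set ι) = {x, y, z} ∧ Adm κ m n T x y z ∧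
      FF κ m n x y z = A) :
    M.card ≤ T.card := by
  classical
  exact le_trans (charge_count (Or.inr hκ) hd hmax M hM) (Finset.card_filter_le _ _)

/-- the parabola and the hyperbola: at most `n` -/
theorem nonpos_count (hκ : κ ≤ 0) (hd : ∀ i ∈ T, ∀ j ∈ T, i ≠ j → dd m n i j ≠ 0)
    (hmax : ∀ x y z, Adm κ m n T x y z → FF κ m n x y z ≤ A)
    (M : Finset (Finset ι))
    (hM : ∀ t ∈ M, ∃ x y z, (↑t : Set ι) = {x, y, z} ∧ Adm κ m n T x y z ∧
      FF κ m n x y z = A) :
    M.card ≤ T.card := by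
  classical
  exact le_trans (charge_count (Or.inl hκ) hd hmax M hM) (Finset.card_filter_le _ _)

lemma cl_nonpos (hκ : κ ≤ 0) {v : ι} (hv : v ∈ CL κ m n T A) :
    ∃ w u, Adm κ m n T v w u ∧ FF κ m n v w u = A ∧ 0 < tau κ m n v w ∧
      tau κ m n v u < 0 ∧ MaxP κ m n T v w ∧ MinP κ m n T v u := by
  classical
  obtain ⟨-, w, u, h1, h2, h3, h4⟩ := Finset.mem_filter.1 hv
  rcases h4 with ⟨a1, a2, a3, a4⟩ | ⟨k, -⟩ | ⟨k, -⟩
  · exact ⟨w, u, h1, h2, a1, a2, a3, a4⟩
  · rw [k] at hκ; norm_num at hκ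
  · rw [k] at hκ; norm_num at hκ

/-- the hyperbola: at most `n - 2` -/
theorem hyperbola_count (hκ : κ ≤ 0) (hd : ∀ i ∈ T, ∀ j ∈ T, i ≠ j → dd m n i j ≠ 0)
    (ψ : ι → ℝ) (hψ : ∀ i ∈ T, ∀ j ∈ T, 0 < tau κ m n i j → ψ i < ψ j)
    (hmax : ∀ x y z, Adm κ m n T x y z → FF κ m n x y z ≤ A)
    (M : Finset (Finset ι))
    (hM : ∀ t ∈ M, ∃ x y z, (↑t : Set ι) = {x, y, z} ∧ Adm κ m n T x y z ∧
      FF κ m n x y z = A) :
    M.card ≤ T.card - 2 := by
  classical
  have h0 := charge_count (Or.inl hκ) hd hmax M hM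
  rcases (CL κ m n T A).eq_empty_or_nonempty with he | ⟨v, hv⟩
  · rw [he, Finset.card_empty] at h0
    omega
  have hmid : ∀ v ∈ CL κ m n T A, ∃ w ∈ T, ∃ u ∈ T, ψ v < ψ w ∧ ψ u < ψ v := by
    intro v hv
    obtain ⟨w, u, h1, -, a1, a2, -, -⟩ := cl_nonpos hκ hv
    refine ⟨w, h1.hy, u, h1.hz, hψ v h1.hx w h1.hy a1, hψ u h1.hz v h1.hx ?_⟩
    rw [tau_comm]; linarith
  have hTne : T.Nonempty := ⟨v, (Finset.mem_filter.1 hv).1⟩
  obtain ⟨i, hi, himin⟩ := Finset.exists_min_image T ψ hTne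
  obtain ⟨j, hj, hjmax⟩ := Finset.exists_max_image T ψ hTne
  have hij : i ≠ j := by
    rintro rfl
    obtain ⟨w, hw, u, hu, h1, h2⟩ := hmid v hv
    have := himin u hu
    have := hjmax w hw
    linarith
  have hsub : CL κ m n T A ⊆ (T.erase i).erase j := by
    intro s hs
    obtain ⟨w, hw, u, hu, h1, h2⟩ := hmid s hs
    rw [Finset.mem_erase, Finset.mem_erase]
    refine ⟨?_, ?_, (Finset.mem_filter.1 hs).1⟩
    · rintro rfl
      have := hjmax w hw
      linarith
    · rintro rfl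
      have := himin u hu
      linarith
  have h1 := Finset.card_le_card hsub
  rw [Finset.card_erase_of_mem (Finset.mem_erase.2 ⟨hij.symm, hj⟩),
    Finset.card_erase_of_mem hi] at h1
  omega

/-- the parabola: at most `2` -/
theorem parabola_count {t : ι → ℝ}
    (hd : ∀ i ∈ T, ∀ j ∈ T, i ≠ j → dd (fun _ => 1) t i j ≠ 0)
    (hmax : ∀ x y z, Adm 0 (fun _ => 1) t T x y z → FF 0 (fun _ => 1) t x y z ≤ A)
    (M : Finset (Finset ι))
    (hM : ∀ s ∈ M, ∃ x y z, (↑s : Set ι) = {x, y, z} ∧ Adm 0 (fun _ => 1) t T x y z ∧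
      FF 0 (fun _ => 1) t x y z = A) :
    M.card ≤ 2 := by
  classical
  have htau : ∀ i j, tau 0 (fun _ => 1) t i j = t j - t i := by
    intro i j; unfold tau dd gg; simp
  have hgg : ∀ i j, gg 0 (fun _ => 1) t i j ≠ 0 := by
    intro i j; unfold gg; simp
  refine le_trans (charge_count (Or.inl le_rfl) hd hmax M hM) ?_
  rcases (CL 0 (fun _ => 1) t T A).eq_empty_or_nonempty with he | ⟨v, hv⟩
  · rw [he]; simp
  obtain ⟨w, u, h1, h2, a1, a2, a3, a4⟩ := cl_nonpos le_rfl hv
  rw [htau] at a1 a2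
  have hq : t w - t u ≠ 0 := by
    have : 0 < t w - t u := by linarith
    exact this.ne'
  have hR := quad_roots_card (a := t w - t u) (b := -(t w - t u) * (t w + t u))
    (c := (t w - t u) * (t w * t u) + A) hq
  refine le_trans (Finset.card_le_card_of_injOn t ?_ ?_) hR
  · intro s hs
    obtain ⟨w', u', h1', h2', b1, b2, b3, b4⟩ := cl_nonpos le_rfl hs
    rw [Finset.mem_coe]
    apply quad_mem hq
    have ew : t w' = t w := by
      have e1 := a3 w' h1'.hy (hgg _ _)
      have e2 := b3 w h1.hy (hgg _ _)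
      rw [htau, htau] at e1 e2
      linarith
    have eu : t u' = t u := by
      have e1 := a4 u' h1'.hz (hgg _ _)
      have e2 := b4 u h1.hz (hgg _ _)
      rw [htau, htau] at e1 e2
      linarith
    unfold FF at h2'
    rw [htau, htau, htau, ew, eu] at h2'
    rw [htau, ew] at b1
    rw [htau, eu] at b2
    have e3 : (t w - t s) * (t u - t w) * (t s - t u) = -((t w - t s) * (t w - t u) *
      (t s - t u)) := by ring
    rw [e3, abs_neg, abs_of_pos] at h2'
    · rw [← h2']; ring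
    · have c1 : 0 < t w - t s := b1
      have c2 : 0 < t s - t u := by linarith
      have c3 : 0 < t w - t u := by linarith
      positivity
  · intro i hi j hj hij
    by_contra hne
    have hi' := (Finset.mem_filter.1 hi).1
    have hj' := (Finset.mem_filter.1 hj).1
    apply hd i hi' j hj' hne
    unfold dd
    rw [hij]; ring

end Pool.Agent.MP27bb56c
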