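import Pool.Agent.Lib.MP_27bb56_h2.Charge
import Pool.Agent.Lib.MP_27bb56_h90.Link

/-!
MP_27bb56_co: the number of maximum area triangles is linear for arrangements all lines of which,
except boundedly many, are tangent to one conic.
-/

namespace Pool.Agent.MP27bb56t

open Pool.Agent.MP27bb56c

/-- the line `a x + b y = c` -/
def line (a b c : ℝ) : Set (ℝ × ℝ) := {p | a * p.1 + b * p.2 = c}

/-- the three lines determine a triangle, and its area is `s`: no two are parallel,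
they do not pass through a common point -/
def IsTriangle (L₁ L₂ L₃ : Set (ℝ × ℝ)) (s : ℝ) : Prop :=
  ∃ P Q R : ℝ × ℝ, L₁ ∩ L₂ = {P} ∧ L₂ ∩ L₃ = {Q} ∧ L₃ ∩ L₁ = {R} ∧ P ≠ Q ∧
    s = |(Q.1 - P.1) * (R.2 - P.2) - (Q.2 - P.2) * (R.1 - P.1)| / 2

/-- the affine map `(x, y) ↦ (p x + q y + e, r x + s y + f)` -/
def aff (p q r s e f : ℝ) (z : ℝ × ℝ) : ℝ × ℝ :=
  (p * z.1 + q * z.2 + e, r * z.1 + s * z.2 + f)

/-- tangent lines of the unit circle -/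
def CircleTangent (L : Set (ℝ × ℝ)) : Prop := ∃ a b : ℝ, a ^ 2 + b ^ 2 = 1 ∧ L = line a b 1

/-- tangent lines of the parabola `y = x^2` (at the point `(t, t^2)`: `y = 2 t x - t^2`) -/
def ParabolaTangent (L : Set (ℝ × ℝ)) : Prop := ∃ t : ℝ, L = line (2 * t) (-1) (t ^ 2)

/-- tangent lines (`c ≠ 0`) and asymptotes (`c = 0`) of the hyperbola `x^2 - y^2 = 1` -/
def HyperbolaTangent (L : Set (ℝ × ℝ)) : Prop :=
  ∃ a b c : ℝ, a ≠ 0 ∧ a ^ 2 = b ^ 2 + c ^ 2 ∧ L = line a b c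

/-- all lines of `S` are images of lines with property `C` under one invertible affine map -/
def AffineImages (C : Set (ℝ × ℝ) → Prop) (S : Finset (Set (ℝ × ℝ))) : Prop :=
  ∃ p q r s e f : ℝ, p * s - q * r ≠ 0 ∧ ∀ L ∈ S, ∃ L₀, C L₀ ∧ L = aff p q r s e f '' L₀

/-- all lines of `S` are tangent lines (or asymptotes) of one common ellipse, parabola or
hyperbola, that is, of the image of the unit circle, of `y = x^2` or of `x^2 - y^2 = 1` under one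
invertible affine map -/
def TangentToCommonConic (S : Finset (Set (ℝ × ℝ))) : Prop :=
  AffineImages CircleTangent S ∨ AffineImages ParabolaTangent S ∨ AffineImages HyperbolaTangent S

lemma inter_eq {a b c a' b' c' : ℝ} (h : a * b' - a' * b ≠ 0) :
    line a b c ∩ line a' b' c' =
      {((c * b' - c' * b) / (a * b' - a' * b), (a * c' - a' * c) / (a * b' - a' * b))} := by
  ext p
  simp only [line, Set.mem_inter_iff, Set.mem_ofPred_eq, Set.mem_singleton_iff, Prod.ext_iff]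
  rw [eq_div_iff h, eq_div_iff h]
  constructor
  · rintro ⟨h1, h2⟩
    constructor
    · rw [← h1, ← h2]; ring
    · rw [← h1, ← h2]; ring
  · rintro ⟨h1, h2⟩
    constructor
    · have : (a * p.1 + b * p.2 - c) * (a * b' - a' * b) = 0 := by
        linear_combination a * h1 + b * h2
      rcases mul_eq_zero.1 this with h3 | h3
      · linarith
      · exact absurd h3 h
    · have : (a' * p.1 + b' * p.2 - c') * (a * b' - a' * b) = 0 := by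
        linear_combination a' * h1 + b' * h2
      rcases mul_eq_zero.1 this with h3 | h3
      · linarith
      · exact absurd h3 h

lemma det_ne {a b c a' b' c' : ℝ} {P : ℝ × ℝ} (hab : a ≠ 0 ∨ b ≠ 0)
    (h : line a b c ∩ line a' b' c' = {P}) : a * b' - a' * b ≠ 0 := by
  intro h0
  have hP : P ∈ line a b c ∩ line a' b' c' := by rw [h]; rfl
  have hP' : (P.1 - b, P.2 + a) ∈ line a b c ∩ line a' b' c' := by
    obtain ⟨h1, h2⟩ := hP
    simp only [line, Set.mem_ofPred_eq] at h1 h2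
    constructor
    · simp only [line, Set.mem_ofPred_eq]; linarith
    · simp only [line, Set.mem_ofPred_eq]; linarith
  rw [h, Set.mem_singleton_iff, Prod.ext_iff] at hP'
  simp only at hP'
  rcases hab with h1 | h1
  · exact h1 (by linarith [hP'.2])
  · exact h1 (by linarith [hP'.1])

/-- determinant -/
def det3 (a₁ b₁ c₁ a₂ b₂ c₂ a₃ b₃ c₃ : ℝ) : ℝ :=
  a₁ * (b₂ * c₃ - b₃ * c₂) - b₁ * (a₂ * c₃ - a₃ * c₂) + c₁ * (a₂ * b₃ - a₃ * b₂)

lemma cross_aux {x y z w u v D₁ D₂ D₃ d a b a' b' : ℝ} (h1 : D₁ ≠ 0) (h2 : D₂ ≠ 0)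
    (h3 : D₃ ≠ 0) (e1 : x * D₁ - y * D₂ = b * d) (e2 : z * D₁ - w * D₃ = a * d)
    (e3 : u * D₁ - w * D₂ = b' * d) (e4 : v * D₁ - y * D₃ = a' * d)
    (e5 : b * a - b' * a' = D₁) :
    (x / D₂ - y / D₁) * (z / D₃ - w / D₁) - (u / D₂ - w / D₁) * (v / D₃ - y / D₁)
      = d ^ 2 / (D₁ * D₂ * D₃) := by
  have f1 : x / D₂ - y / D₁ = b * d / (D₁ * D₂) := by
    rw [← e1]; field_simp
  have f2 : z / D₃ - w / D₁ = a * d / (D₁ * D₃) := by
    rw [← e2]; field_simp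
  have f3 : u / D₂ - w / D₁ = b' * d / (D₁ * D₂) := by
    rw [← e3]; field_simp
  have f4 : v / D₃ - y / D₁ = a' * d / (D₁ * D₃) := by
    rw [← e4]; field_simp
  rw [f1, f2, f3, f4]
  have f5 : b * d / (D₁ * D₂) * (a * d / (D₁ * D₃)) - b' * d / (D₁ * D₂) * (a' * d / (D₁ * D₃))
      = (b * a - b' * a') * d ^ 2 / (D₁ * D₁ * D₂ * D₃) := by
    field_simp
  rw [f5, e5]
  field_simp

lemma cross_eq {a₁ b₁ c₁ a₂ b₂ c₂ a₃ b₃ c₃ : ℝ} (h12 : a₁ * b₂ - a₂ * b₁ ≠ 0)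
    (h23 : a₂ * b₃ - a₃ * b₂ ≠ 0) (h31 : a₃ * b₁ - a₁ * b₃ ≠ 0) :
    ((c₂ * b₃ - c₃ * b₂) / (a₂ * b₃ - a₃ * b₂) - (c₁ * b₂ - c₂ * b₁) / (a₁ * b₂ - a₂ * b₁)) *
      ((a₃ * c₁ - a₁ * c₃) / (a₃ * b₁ - a₁ * b₃) - (a₁ * c₂ - a₂ * c₁) / (a₁ * b₂ - a₂ * b₁))
    - ((a₂ * c₃ - a₃ * c₂) / (a₂ * b₃ - a₃ * b₂) - (a₁ * c₂ - a₂ * c₁) / (a₁ * b₂ - a₂ * b₁)) *
      ((c₃ * b₁ - c₁ * b₃) / (a₃ * b₁ - a₁ * b₃) - (c₁ * b₂ - c₂ * b₁) / (a₁ * b₂ - a₂ * b₁))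
    = det3 a₁ b₁ c₁ a₂ b₂ c₂ a₃ b₃ c₃ ^ 2 /
      ((a₁ * b₂ - a₂ * b₁) * (a₂ * b₃ - a₃ * b₂) * (a₃ * b₁ - a₁ * b₃)) := by
  refine cross_aux (a := -a₁) (b := -b₂) (a' := b₁) (b' := a₂) h12 h23 h31 ?_ ?_ ?_ ?_ ?_ <;>
    (try unfold det3) <;> ring

lemma tri_of {a₁ b₁ c₁ a₂ b₂ c₂ a₃ b₃ c₃ : ℝ} (h12 : a₁ * b₂ - a₂ * b₁ ≠ 0)
    (h23 : a₂ * b₃ - a₃ * b₂ ≠ 0) (h31 : a₃ * b₁ - a₁ * b₃ ≠ 0)
    (hd : det3 a₁ b₁ c₁ a₂ b₂ c₂ a₃ b₃ c₃ ≠ 0) :
    IsTriangle (line a₁ b₁ c₁) (line a₂ b₂ c₂) (line a₃ b₃ c₃)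
      (|det3 a₁ b₁ c₁ a₂ b₂ c₂ a₃ b₃ c₃ ^ 2 /
      ((a₁ * b₂ - a₂ * b₁) * (a₂ * b₃ - a₃ * b₂) * (a₃ * b₁ - a₁ * b₃))| / 2) := by
  refine ⟨_, _, _, inter_eq h12, inter_eq h23, inter_eq h31, ?_, ?_⟩
  · intro h
    have e := cross_eq (c₁ := c₁) (c₂ := c₂) (c₃ := c₃) h12 h23 h31
    rw [Prod.ext_iff] at h
    simp only at h
    rw [h.1, h.2] at e
    have h2 : det3 a₁ b₁ c₁ a₂ b₂ c₂ a₃ b₃ c₃ ^ 2 /
      ((a₁ * b₂ - a₂ * b₁) * (a₂ * b₃ - a₃ * b₂) * (a₃ * b₁ - a₁ * b₃)) = 0 := by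
      rw [← e]; ring
    rw [div_eq_zero_iff] at h2
    rcases h2 with h2 | h2
    · exact hd (pow_eq_zero_iff (two_ne_zero) |>.1 h2)
    · exact mul_ne_zero (mul_ne_zero h12 h23) h31 h2
  · rw [← cross_eq h12 h23 h31]

lemma tri_only {a₁ b₁ c₁ a₂ b₂ c₂ a₃ b₃ c₃ s : ℝ} (h1 : a₁ ≠ 0 ∨ b₁ ≠ 0)
    (h2 : a₂ ≠ 0 ∨ b₂ ≠ 0) (h3 : a₃ ≠ 0 ∨ b₃ ≠ 0)
    (h : IsTriangle (line a₁ b₁ c₁) (line a₂ b₂ c₂) (line a₃ b₃ c₃) s) :
    a₁ * b₂ - a₂ * b₁ ≠ 0 ∧ a₂ * b₃ - a₃ * b₂ ≠ 0 ∧ a₃ * b₁ - a₁ * b₃ ≠ 0 ∧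
    s = |det3 a₁ b₁ c₁ a₂ b₂ c₂ a₃ b₃ c₃ ^ 2 /
      ((a₁ * b₂ - a₂ * b₁) * (a₂ * b₃ - a₃ * b₂) * (a₃ * b₁ - a₁ * b₃))| / 2 := by
  obtain ⟨P, Q, R, hP, hQ, hR, -, hs⟩ := h
  have h12 := det_ne h1 hP
  have h23 := det_ne h2 hQ
  have h31 := det_ne h3 hR
  refine ⟨h12, h23, h31, ?_⟩
  rw [inter_eq h12, Set.singleton_eq_singleton_iff] at hP
  rw [inter_eq h23, Set.singleton_eq_singleton_iff] at hQ
  rw [inter_eq h31, Set.singleton_eq_singleton_iff] at hR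
  rw [hs, ← hP, ← hQ, ← hR, ← cross_eq h12 h23 h31]

section affine
variable {p q r s e f : ℝ}

lemma aff_inj (h : p * s - q * r ≠ 0) : Function.Injective (aff p q r s e f) := by
  intro z w hzw
  simp only [aff, Prod.mk.injEq] at hzw
  obtain ⟨h1, h2⟩ := hzw
  have e1 : (p * s - q * r) * (z.1 - w.1) = 0 := by linear_combination s * h1 - q * h2
  have e2 : (p * s - q * r) * (z.2 - w.2) = 0 := by linear_combination p * h2 - r * h1
  ext
  · rcases mul_eq_zero.1 e1 with h3 | h3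
    · exact absurd h3 h
    · linarith
  · rcases mul_eq_zero.1 e2 with h3 | h3
    · exact absurd h3 h
    · linarith

lemma cross_aff (P Q R : ℝ × ℝ) :
    ((aff p q r s e f Q).1 - (aff p q r s e f P).1) * ((aff p q r s e f R).2 -
      (aff p q r s e f P).2) - ((aff p q r s e f Q).2 - (aff p q r s e f P).2) *
      ((aff p q r s e f R).1 - (aff p q r s e f P).1)
    = (p * s - q * r) * ((Q.1 - P.1) * (R.2 - P.2) - (Q.2 - P.2) * (R.1 - P.1)) := by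
  simp only [aff]; ring

lemma tri_aff (h : p * s - q * r ≠ 0) {L₁ L₂ L₃ : Set (ℝ × ℝ)} {t : ℝ}
    (ht : IsTriangle L₁ L₂ L₃ t) :
    IsTriangle (aff p q r s e f '' L₁) (aff p q r s e f '' L₂) (aff p q r s e f '' L₃)
      (|p * s - q * r| * t) := by
  obtain ⟨P, Q, R, hP, hQ, hR, hPQ, ht⟩ := ht
  have hi := aff_inj (e := e) (f := f) h
  refine ⟨aff p q r s e f P, aff p q r s e f Q, aff p q r s e f R, ?_, ?_, ?_,
    fun h0 => hPQ (hi h0), ?_⟩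
  · rw [← Set.image_inter hi, hP, Set.image_singleton]
  · rw [← Set.image_inter hi, hQ, Set.image_singleton]
  · rw [← Set.image_inter hi, hR, Set.image_singleton]
  · rw [cross_aff, abs_mul, ht]; ring

lemma single_of_image {g : ℝ × ℝ → ℝ × ℝ} (hi : Function.Injective g) {U : Set (ℝ × ℝ)}
    {P' : ℝ × ℝ} (h : g '' U = {P'}) : ∃ P, U = {P} ∧ g P = P' := by
  have : P' ∈ g '' U := by rw [h]; rfl
  obtain ⟨P, hP, rfl⟩ := this
  refine ⟨P, ?_, rfl⟩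
  apply Set.eq_singleton_iff_unique_mem.2 ⟨hP, ?_⟩
  intro Q hQ
  have : g Q ∈ g '' U := ⟨Q, hQ, rfl⟩
  rw [h] at this
  exact hi this

lemma tri_aff_inv (h : p * s - q * r ≠ 0) {L₁ L₂ L₃ : Set (ℝ × ℝ)} {t : ℝ}
    (ht : IsTriangle (aff p q r s e f '' L₁) (aff p q r s e f '' L₂)
      (aff p q r s e f '' L₃) t) :
    ∃ t', IsTriangle L₁ L₂ L₃ t' ∧ t = |p * s - q * r| * t' := by
  obtain ⟨P', Q', R', hP, hQ, hR, hPQ, ht⟩ := ht
  have hi := aff_inj (e := e) (f := f) h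
  rw [← Set.image_inter hi] at hP hQ hR
  obtain ⟨P, hP1, rfl⟩ := single_of_image hi hP
  obtain ⟨Q, hQ1, rfl⟩ := single_of_image hi hQ
  obtain ⟨R, hR1, rfl⟩ := single_of_image hi hR
  refine ⟨_, ⟨P, Q, R, hP1, hQ1, hR1, fun h0 => hPQ (by rw [h0]), rfl⟩, ?_⟩
  rw [ht, cross_aff, abs_mul]; ring

end affine

/-- the general counting statement for a parametrised family -/
theorem general {κ δ : ℝ} {k : ℕ} (hδ : δ ≠ 0)
    (a b c m n : Set (ℝ × ℝ) → ℝ) {p q r s e f : ℝ} (hdet : p * s - q * r ≠ 0)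
    (S : Finset (Set (ℝ × ℝ)))
    (hL : ∀ L ∈ S, L = aff p q r s e f '' line (a L) (b L) (c L))
    (hab : ∀ L ∈ S, a L ≠ 0 ∨ b L ≠ 0)
    (hD : ∀ L ∈ S, ∀ L' ∈ S, a L * b L' - a L' * b L = 2 * (dd m n L L' * gg κ m n L L'))
    (hdet3 : ∀ L ∈ S, ∀ L' ∈ S, ∀ L'' ∈ S,
      det3 (a L) (b L) (c L) (a L') (b L') (c L') (a L'') (b L'') (c L'') =
        δ * (dd m n L L' * dd m n L' L'' * dd m n L'' L))
    (hd : ∀ L ∈ S, ∀ L' ∈ S, L ≠ L' → dd m n L L' ≠ 0) (A : ℝ)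
    (hA : ∀ L₁ ∈ S, ∀ L₂ ∈ S, ∀ L₃ ∈ S, ∀ t, IsTriangle L₁ L₂ L₃ t → t ≤ A)
    (M : Finset (Finset (Set (ℝ × ℝ))))
    (hM : ∀ t ∈ M, ∃ L₁ ∈ S, ∃ L₂ ∈ S, ∃ L₃ ∈ S,
      (↑t : Set (Set (ℝ × ℝ))) = {L₁, L₂, L₃} ∧ IsTriangle L₁ L₂ L₃ A)
    (hcount : (∀ L ∈ S, ∀ L' ∈ S, L ≠ L' → dd m n L L' ≠ 0) → ∀ B : ℝ, (∀ x y z, Adm κ m n S x y z → FF κ m n x y z ≤ B) →
      (∀ t ∈ M, ∃ x y z, (↑t : Set (Set (ℝ × ℝ))) = {x, y, z} ∧ Adm κ m n S x y z ∧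
        FF κ m n x y z = B) → M.card ≤ k) :
    M.card ≤ k := by
  classical
  set K : ℝ := |p * s - q * r| * (δ ^ 2 / 16) with hK
  have hKpos : 0 < K := by
    have h1 : 0 < |p * s - q * r| := abs_pos.2 hdet
    have h2 : 0 < δ ^ 2 := by positivity
    positivity
  -- area in terms of FF
  have harea : ∀ x y z, x ∈ S → y ∈ S → z ∈ S →
      gg κ m n x y ≠ 0 → gg κ m n y z ≠ 0 → gg κ m n z x ≠ 0 →
      dd m n x y ≠ 0 → dd m n y z ≠ 0 → dd m n z x ≠ 0 →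
      |det3 (a x) (b x) (c x) (a y) (b y) (c y) (a z) (b z) (c z) ^ 2 /
      ((a x * b y - a y * b x) * (a y * b z - a z * b y) * (a z * b x - a x * b z))| / 2
        = δ ^ 2 / 16 * FF κ m n x y z := by
    intro x y z hx hy hz g1 g2 g3 d1 d2 d3
    rw [hD x hx y hy, hD y hy z hz, hD z hz x hx, hdet3 x hx y hy z hz]
    unfold FF tau
    have : (δ * (dd m n x y * dd m n y z * dd m n z x)) ^ 2 /
        (2 * (dd m n x y * gg κ m n x y) * (2 * (dd m n y z * gg κ m n y z)) *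
          (2 * (dd m n z x * gg κ m n z x)))
        = δ ^ 2 / 8 * (dd m n x y / gg κ m n x y * (dd m n y z / gg κ m n y z) *
          (dd m n z x / gg κ m n z x)) := by
      field_simp
      ring
    rw [this, abs_mul, abs_of_nonneg (by positivity : (0:ℝ) ≤ δ ^ 2 / 8)]
    ring
  -- triangle -> Adm
  have htoAdm : ∀ x y z t, x ∈ S → y ∈ S → z ∈ S → IsTriangle x y z t →
      Adm κ m n S x y z ∧ t = K * FF κ m n x y z := by
    intro x y z t hx hy hz ht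
    have ht0 := ht
    rw [hL x hx, hL y hy, hL z hz] at ht
    obtain ⟨t', ht', htt⟩ := tri_aff_inv hdet ht
    obtain ⟨h1, h2, h3, h4⟩ := tri_only (hab x hx) (hab y hy) (hab z hz) ht'
    have e1 := h1
    have e2 := h2
    have e3 := h3
    rw [hD x hx y hy] at e1
    rw [hD y hy z hz] at e2
    rw [hD z hz x hx] at e3
    have d1 := left_ne_zero_of_mul (right_ne_zero_of_mul e1)
    have d2 := left_ne_zero_of_mul (right_ne_zero_of_mul e2)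
    have d3 := left_ne_zero_of_mul (right_ne_zero_of_mul e3)
    have g1 := right_ne_zero_of_mul (right_ne_zero_of_mul e1)
    have g2 := right_ne_zero_of_mul (right_ne_zero_of_mul e2)
    have g3 := right_ne_zero_of_mul (right_ne_zero_of_mul e3)
    have dself : ∀ w, dd m n w w = 0 := by intro w; unfold dd; ring
    refine ⟨⟨hx, hy, hz, ?_, ?_, ?_, g1, g2, g3⟩, ?_⟩
    · rintro rfl; exact d1 (dself _)
    · rintro rfl; exact d2 (dself _)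
    · rintro rfl; exact d3 (dself _)
    · rw [htt, h4, harea x y z hx hy hz g1 g2 g3 d1 d2 d3, hK]; ring
  -- Adm -> triangle
  have hofAdm : ∀ x y z, Adm κ m n S x y z → IsTriangle x y z (K * FF κ m n x y z) := by
    intro x y z h
    have d1 := hd x h.hx y h.hy h.xy
    have d2 := hd y h.hy z h.hz h.yz
    have d3 := hd z h.hz x h.hx h.zx
    have h1 : a x * b y - a y * b x ≠ 0 := by
      rw [hD x h.hx y h.hy]; exact mul_ne_zero two_ne_zero (mul_ne_zero d1 h.gxy)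
    have h2 : a y * b z - a z * b y ≠ 0 := by
      rw [hD y h.hy z h.hz]; exact mul_ne_zero two_ne_zero (mul_ne_zero d2 h.gyz)
    have h3 : a z * b x - a x * b z ≠ 0 := by
      rw [hD z h.hz x h.hx]; exact mul_ne_zero two_ne_zero (mul_ne_zero d3 h.gzx)
    have h4 : det3 (a x) (b x) (c x) (a y) (b y) (c y) (a z) (b z) (c z) ≠ 0 := by
      rw [hdet3 x h.hx y h.hy z h.hz]
      exact mul_ne_zero hδ (mul_ne_zero (mul_ne_zero d1 d2) d3)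
    have h5 := tri_aff (e := e) (f := f) hdet (tri_of h1 h2 h3 h4)
    rw [harea x y z h.hx h.hy h.hz h.gxy h.gyz h.gzx d1 d2 d3, ← hL x h.hx, ← hL y h.hy,
      ← hL z h.hz] at h5
    rw [hK, mul_assoc]
    exact h5
  have hmax : ∀ x y z, Adm κ m n S x y z → FF κ m n x y z ≤ A / K := by
    intro x y z h
    have := hA x h.hx y h.hy z h.hz _ (hofAdm x y z h)
    rw [le_div_iff₀ hKpos]
    linarith
  have hM' : ∀ t ∈ M, ∃ x y z, (↑t : Set (Set (ℝ × ℝ))) = {x, y, z} ∧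
      Adm κ m n S x y z ∧ FF κ m n x y z = A / K := by
    intro t ht
    obtain ⟨x, hx, y, hy, z, hz, ht1, ht2⟩ := hM t ht
    obtain ⟨h1, h2⟩ := htoAdm x y z A hx hy hz ht2
    refine ⟨x, y, z, ht1, h1, ?_⟩
    rw [eq_div_iff hKpos.ne']; linarith
  exact hcount hd (A / K) hmax hM'

/-- half angles -/
lemma half {u v : ℝ} (h : u ^ 2 + v ^ 2 = 1) :
    ∃ m n : ℝ, m ^ 2 + n ^ 2 = 1 ∧ m ^ 2 - n ^ 2 = u ∧ 2 * m * n = v := by
  have hu : u ≤ 1 := by nlinarith [sq_nonneg v, sq_nonneg (u - 1)]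
  have hu' : -1 ≤ u := by nlinarith [sq_nonneg v, sq_nonneg (u + 1)]
  have h1 : 0 ≤ (1 + u) / 2 := by linarith
  have h2 : 0 ≤ (1 - u) / 2 := by linarith
  have e1 := Real.sq_sqrt h1
  have e2 := Real.sq_sqrt h2
  have hprod : 2 * (√((1 + u) / 2) * √((1 - u) / 2)) = |v| := by
    have h3 : (0:ℝ) ≤ 2 * (√((1 + u) / 2) * √((1 - u) / 2)) := by positivity
    rw [← abs_of_nonneg h3]
    apply (sq_eq_sq_iff_abs_eq_abs _ _).1
    rw [mul_pow, mul_pow, e1, e2]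
    linarith
  rcases le_total 0 v with hv | hv
  · refine ⟨√((1 + u) / 2), √((1 - u) / 2), by rw [e1, e2]; ring, by rw [e1, e2]; ring, ?_⟩
    rw [mul_assoc, hprod, abs_of_nonneg hv]
  · refine ⟨√((1 + u) / 2), -√((1 - u) / 2), by rw [neg_sq, e1, e2]; ring,
      by rw [neg_sq, e1, e2]; ring, ?_⟩
    have : 2 * √((1 + u) / 2) * -√((1 - u) / 2) = -(2 * (√((1 + u) / 2) * √((1 - u) / 2))) := by
      ring
    rw [this, hprod, abs_of_nonpos hv, neg_neg]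

lemma unit_eq {m n m' n' : ℝ} (h : m ^ 2 + n ^ 2 = 1) (h' : m' ^ 2 + n' ^ 2 = 1)
    (hd : m * n' - n * m' = 0) : m' ^ 2 = m ^ 2 ∧ n' ^ 2 = n ^ 2 ∧ m' * n' = m * n := by
  set k := m * m' + n * n' with hk
  have hk2 : k ^ 2 = 1 := by
    have : k ^ 2 + (m * n' - n * m') ^ 2 = (m ^ 2 + n ^ 2) * (m' ^ 2 + n' ^ 2) := by
      rw [hk]; ring
    rw [hd, h, h'] at this
    linarith
  have e1 : m' = k * m := by
    have : m' * (m ^ 2 + n ^ 2) = k * m - n * (m * n' - n * m') := by rw [hk]; ring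
    rw [h, hd] at this
    linarith
  have e2 : n' = k * n := by
    have : n' * (m ^ 2 + n ^ 2) = k * n + m * (m * n' - n * m') := by rw [hk]; ring
    rw [h, hd] at this
    linarith
  refine ⟨?_, ?_, ?_⟩
  · rw [e1, mul_pow, hk2, one_mul]
  · rw [e2, mul_pow, hk2, one_mul]
  · rw [e1, e2]
    calc k * m * (k * n) = k ^ 2 * (m * n) := by ring
      _ = m * n := by rw [hk2, one_mul]

theorem ellipse_case (S : Finset (Set (ℝ × ℝ))) (hS : AffineImages CircleTangent S) (A : ℝ)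
    (hA : ∀ L₁ ∈ S, ∀ L₂ ∈ S, ∀ L₃ ∈ S, ∀ t, IsTriangle L₁ L₂ L₃ t → t ≤ A)
    (M : Finset (Finset (Set (ℝ × ℝ))))
    (hM : ∀ t ∈ M, ∃ L₁ ∈ S, ∃ L₂ ∈ S, ∃ L₃ ∈ S,
      (↑t : Set (Set (ℝ × ℝ))) = {L₁, L₂, L₃} ∧ IsTriangle L₁ L₂ L₃ A) :
    M.card ≤ S.card := by
  classical
  obtain ⟨p, q, r, s, e, f, hdet, hfam⟩ := hS
  have hch : ∀ L : Set (ℝ × ℝ), ∃ mn : ℝ × ℝ, L ∈ S → mn.1 ^ 2 + mn.2 ^ 2 = 1 ∧
      L = aff p q r s e f '' line (mn.1 ^ 2 - mn.2 ^ 2) (2 * mn.1 * mn.2)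
        (mn.1 ^ 2 + mn.2 ^ 2) := by
    intro L
    by_cases hL : L ∈ S
    · obtain ⟨L₀, ⟨a, b, hab, rfl⟩, rfl⟩ := hfam L hL
      obtain ⟨m, n, h1, h2, h3⟩ := half hab
      refine ⟨(m, n), fun _ => ⟨h1, ?_⟩⟩
      simp only
      rw [h1, h2, h3]
    · exact ⟨0, fun h => absurd h hL⟩
  choose mn hmn using hch
  refine general (κ := 1) (δ := -4) (by norm_num)
    (fun L => (mn L).1 ^ 2 - (mn L).2 ^ 2) (fun L => 2 * (mn L).1 * (mn L).2)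
    (fun L => (mn L).1 ^ 2 + (mn L).2 ^ 2) (fun L => (mn L).1) (fun L => (mn L).2) hdet S
    (fun L hL => (hmn L hL).2) ?_ ?_ ?_ ?_ A hA M hM
    (fun hd B h1 h2 => ellipse_count rfl hd h1 M h2)
  · intro L hL
    by_contra hcon
    push Not at hcon
    have h1 := (hmn L hL).1
    have h2 : ((mn L).1 ^ 2 - (mn L).2 ^ 2) ^ 2 + (2 * (mn L).1 * (mn L).2) ^ 2 =
      ((mn L).1 ^ 2 + (mn L).2 ^ 2) ^ 2 := by ring
    rw [hcon.1, hcon.2, h1] at h2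
    norm_num at h2
  · intro L _ L' _
    simp only [dd, gg]; ring
  · intro L _ L' _ L'' _
    simp only [dd, det3]; ring
  · intro L hL L' hL' hne h0
    apply hne
    have h1 := (hmn L hL).1
    have h2 := (hmn L' hL').1
    obtain ⟨e1, e2, e3⟩ := unit_eq h1 h2 h0
    rw [(hmn L hL).2, (hmn L' hL').2, e1, e2, mul_assoc 2 (mn L').1, e3, mul_assoc]

theorem parabola_case (S : Finset (Set (ℝ × ℝ))) (hS : AffineImages ParabolaTangent S) (A : ℝ)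
    (hA : ∀ L₁ ∈ S, ∀ L₂ ∈ S, ∀ L₃ ∈ S, ∀ t, IsTriangle L₁ L₂ L₃ t → t ≤ A)
    (M : Finset (Finset (Set (ℝ × ℝ))))
    (hM : ∀ t ∈ M, ∃ L₁ ∈ S, ∃ L₂ ∈ S, ∃ L₃ ∈ S,
      (↑t : Set (Set (ℝ × ℝ))) = {L₁, L₂, L₃} ∧ IsTriangle L₁ L₂ L₃ A) :
    M.card ≤ S.card := by
  classical
  obtain ⟨p, q, r, s, e, f, hdet, hfam⟩ := hS
  have hch : ∀ L : Set (ℝ × ℝ), ∃ t : ℝ, L ∈ S →
      L = aff p q r s e f '' line (2 * t) (-1) (t ^ 2) := by
    intro L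
    by_cases hL : L ∈ S
    · obtain ⟨L₀, ⟨t, rfl⟩, hL2⟩ := hfam L hL
      exact ⟨t, fun _ => hL2⟩
    · exact ⟨0, fun h => absurd h hL⟩
  choose t ht using hch
  refine general (κ := 0) (δ := -2) (by norm_num)
    (fun L => 2 * t L) (fun _ => -1)
    (fun L => t L ^ 2) (fun _ => 1) (fun L => t L) hdet S
    (fun L hL => ht L hL) ?_ ?_ ?_ ?_ A hA M hM
    (fun hd B h1 h2 => nonpos_count le_rfl hd h1 M h2)
  · intro L hL
    right; norm_num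
  · intro L _ L' _
    simp only [dd, gg]; ring
  · intro L _ L' _ L'' _
    simp only [dd, det3]; ring
  · intro L hL L' hL' hne h0
    apply hne
    have : t L = t L' := by
      simp only [dd] at h0; linarith
    rw [ht L hL, ht L' hL', this]

theorem hyperbola_case (S : Finset (Set (ℝ × ℝ))) (hS : AffineImages HyperbolaTangent S) (A : ℝ)
    (hA : ∀ L₁ ∈ S, ∀ L₂ ∈ S, ∀ L₃ ∈ S, ∀ t, IsTriangle L₁ L₂ L₃ t → t ≤ A)
    (M : Finset (Finset (Set (ℝ × ℝ))))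
    (hM : ∀ t ∈ M, ∃ L₁ ∈ S, ∃ L₂ ∈ S, ∃ L₃ ∈ S,
      (↑t : Set (Set (ℝ × ℝ))) = {L₁, L₂, L₃} ∧ IsTriangle L₁ L₂ L₃ A) :
    M.card ≤ S.card := by
  classical
  obtain ⟨p, q, r, s, e, f, hdet, hfam⟩ := hS
  have hch : ∀ L : Set (ℝ × ℝ), ∃ mn : ℝ × ℝ, L ∈ S → mn.1 ^ 2 + mn.2 ^ 2 = 1 ∧
      L = aff p q r s e f '' line (mn.1 ^ 2 + mn.2 ^ 2) (2 * mn.1 * mn.2)
        (mn.1 ^ 2 - mn.2 ^ 2) := by
    intro L
    by_cases hL : L ∈ S
    · obtain ⟨L₀, ⟨a, b, c, ha, habc, rfl⟩, rfl⟩ := hfam L hL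
      have h0 : (c / a) ^ 2 + (b / a) ^ 2 = 1 := by
        field_simp; linarith
      obtain ⟨m, n, h1, h2, h3⟩ := half h0
      refine ⟨(m, n), fun _ => ⟨h1, ?_⟩⟩
      simp only
      rw [h1, h2, h3]
      congr 1
      ext z
      simp only [line, Set.mem_ofPred_eq]
      rw [one_mul, div_mul_eq_mul_div, ← eq_sub_iff_add_eq, ← eq_sub_iff_add_eq,
        ← sub_div, eq_div_iff ha, mul_comm a]
    · exact ⟨0, fun h => absurd h hL⟩
  choose mn hmn using hch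
  refine general (κ := -1) (δ := 4) (by norm_num)
    (fun L => (mn L).1 ^ 2 + (mn L).2 ^ 2) (fun L => 2 * (mn L).1 * (mn L).2)
    (fun L => (mn L).1 ^ 2 - (mn L).2 ^ 2) (fun L => (mn L).1) (fun L => (mn L).2) hdet S
    (fun L hL => (hmn L hL).2) ?_ ?_ ?_ ?_ A hA M hM
    (fun hd B h1 h2 => nonpos_count (by norm_num) hd h1 M h2)
  · intro L hL
    left
    rw [(hmn L hL).1]; exact one_ne_zero
  · intro L _ L' _
    simp only [dd, gg]; ring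
  · intro L _ L' _ L'' _
    simp only [dd, det3]; ring
  · intro L hL L' hL' hne h0
    apply hne
    have h1 := (hmn L hL).1
    have h2 := (hmn L' hL').1
    obtain ⟨e1, e2, e3⟩ := unit_eq h1 h2 h0
    rw [(hmn L hL).2, (hmn L' hL').2, e1, e2, mul_assoc 2 (mn L').1, e3, mul_assoc]

open Pool.Agent.MP27bb56

lemma tri_iff {L₁ L₂ L₃ : Set (ℝ × ℝ)} {t : ℝ} :
    IsTriangle L₁ L₂ L₃ t ↔ TriangleArea L₁ L₂ L₃ t := by
  constructor
  · rintro ⟨P, Q, R, h1, h2, h3, hne, ht⟩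
    refine ⟨Q, R, P, h2, by rw [Set.inter_comm]; exact h3, h1, ?_, ?_⟩
    · rw [Set.eq_empty_iff_forall_notMem]
      rintro X ⟨hX1, hX2⟩
      have e1 : X = P := by rw [h1] at hX1; exact hX1
      have e2 : X ∈ L₂ ∩ L₃ := by
        refine ⟨?_, hX2⟩
        have : X ∈ L₁ ∩ L₂ := by rw [h1, e1]; rfl
        exact this.2
      have e3 : X = Q := by rw [h2] at e2; exact e2
      exact hne (e1.symm.trans e3)
    · rw [ht]
      congr 2
      ring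
  · rintro ⟨P, Q, R, h1, h2, h3, hem, ht⟩
    refine ⟨R, P, Q, h3, h1, by rw [Set.inter_comm]; exact h2, ?_, ?_⟩
    · rintro rfl
      have e1 : R ∈ L₁ ∩ L₂ := by rw [h3]; rfl
      have e2 : R ∈ L₂ ∩ L₃ := by rw [h1]; rfl
      have : R ∈ L₁ ∩ L₂ ∩ L₃ := ⟨e1, e2.2⟩
      rw [hem] at this
      exact this
    · rw [ht]
      congr 2
      ring

open Classical in
theorem split (L : Finset (Set (ℝ × ℝ))) (hL : ∀ l ∈ L, IsLine l) (A : ℝ)
    (hA : IsMaxArea L A) (S : Finset (Set (ℝ × ℝ))) (hSL : S ⊆ L) (N : ℕ)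
    (hN : ∀ M : Finset (Finset (Set (ℝ × ℝ))),
      (∀ t ∈ M, ∃ L₁ ∈ S, ∃ L₂ ∈ S, ∃ L₃ ∈ S,
        (↑t : Set (Set (ℝ × ℝ))) = {L₁, L₂, L₃} ∧ IsTriangle L₁ L₂ L₃ A) → M.card ≤ N) :
    (maxTriples L A).card ≤ N + (L.card - S.card) * (L.card - 2) := by
  have hsub : maxTriples L A ⊆ (maxTriples L A).filter (fun t => t ⊆ S) ∪
      (L \ S).biUnion (fun c => (maxTriples L A).filter (fun t => c ∈ t)) := by
    intro t ht
    rw [Finset.mem_union]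
    by_cases h : t ⊆ S
    · left; exact Finset.mem_filter.2 ⟨ht, h⟩
    · right
      rw [Finset.not_subset] at h
      obtain ⟨c, hc1, hc2⟩ := h
      rw [Finset.mem_biUnion]
      refine ⟨c, ?_, Finset.mem_filter.2 ⟨ht, hc1⟩⟩
      rw [Finset.mem_sdiff]
      refine ⟨?_, hc2⟩
      have := (Finset.mem_filter.1 ht).1
      exact (Finset.mem_powersetCard.1 this).1 hc1
  refine le_trans (Finset.card_le_card hsub) (le_trans (Finset.card_union_le _ _) ?_)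
  refine add_le_add (hN _ ?_) ?_
  · intro t ht
    obtain ⟨ht1, ht2⟩ := Finset.mem_filter.1 ht
    obtain ⟨l₁, l₂, l₃, h1, h2⟩ := (Finset.mem_filter.1 ht1).2
    refine ⟨l₁, ht2 (by rw [h1]; simp), l₂, ht2 (by rw [h1]; simp), l₃,
      ht2 (by rw [h1]; simp), by rw [h1]; simp, tri_iff.2 h2⟩
  · rw [← Finset.card_sdiff_of_subset hSL]
    apply Finset.card_biUnion_le_card_mul
    intro c hc
    have := link_le L hL A hA c (Finset.mem_sdiff.1 hc).1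
    convert this

/-- **Main theorem.** Let `L` be an arrangement of `n` lines (with at least one triangle) and let
`S ⊆ L`, so that `L` has `n - |S|` further lines. If all lines of `S` are tangent lines (or
asymptotes) of one common ellipse, parabola or hyperbola, then `L` has at most
`|S| + (n - |S|) (n - 2)` triangles of maximum area. -/
theorem conic_tangents (L : Finset (Set (ℝ × ℝ))) (hL : ∀ l ∈ L, IsLine l) (A : ℝ)
    (hA : IsMaxArea L A) (S : Finset (Set (ℝ × ℝ))) (hSL : S ⊆ L)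
    (hS : TangentToCommonConic S) :
    (maxTriples L A).card ≤ S.card + (L.card - S.card) * (L.card - 2) := by
  have hA' : ∀ L₁ ∈ S, ∀ L₂ ∈ S, ∀ L₃ ∈ S, ∀ t, IsTriangle L₁ L₂ L₃ t → t ≤ A := by
    intro L₁ h1 L₂ h2 L₃ h3 t ht
    exact hA.2 L₁ (hSL h1) L₂ (hSL h2) L₃ (hSL h3) t (tri_iff.1 ht)
  refine split L hL A hA S hSL _ (fun M hM => ?_)
  rcases hS with hS | hS | hS
  · exact ellipse_case S hS A hA' M hM
  · exact parabola_case S hS A hA' M hM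
  · exact hyperbola_case S hS A hA' M hM

end Pool.Agent.MP27bb56t
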